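import Mathlib

set_option autoImplicit false

/-! # Machine models: 1-limited automata, once-marking 1-limited automata, 2DFAs -/

namespace Pool.Agent.H617R2

open Relation

/-- Contents of a tape cell over the tape alphabet `G`: the left endmarker, the right endmarker,
or a symbol of `G`. -/
inductive Cell (G : Type)
  | lend
  | rend
  | letter (g : G)

/-- The tape of a finite automaton on input `w`: cell `0` holds the left endmarker, the cells
`1, …, |w|` hold the letters of `w`, and cell `|w| + 1` holds the right endmarker. -/
def cellOf {G : Type} (w : List G) (i : ℕ) : Cell G :=
  if i = 0 then Cell.lend
  else match w[i - 1]? with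
    | some a => Cell.letter a
    | none => Cell.rend

/-! ### Two-way deterministic finite automata -/

/-- A two-way deterministic finite automaton with input alphabet `A` and set of states `Q`.
`move q s = some (p, d)` means: in state `q`, scanning `s`, go to state `p` and move the head one
cell to the right if `d = true`, one cell to the left if `d = false`; `none` means that no move is
defined. -/
structure TwoDFA (A Q : Type) where
  start : Q
  final : Set Q
  move : Q → Cell A → Option (Q × Bool)

/-- One move on input `w`; a configuration is a pair (state, head position).  The head never
leaves the tape to the left, and no move starts beyond the right endmarker. -/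
def TwoDFA.Step {A Q : Type} (D : TwoDFA A Q) (w : List A) (c c' : Q × ℕ) : Prop :=
  c.2 ≤ w.length + 1 ∧
    ((D.move c.1 (cellOf w c.2) = some (c'.1, true) ∧ c'.2 = c.2 + 1) ∨
      (D.move c.1 (cellOf w c.2) = some (c'.1, false) ∧ c'.2 + 1 = c.2))

/-- `w` is accepted: the computation started in the initial state on the left endmarker leaves the
right endmarker to the right in a final state. -/
def TwoDFA.Accepts {A Q : Type} (D : TwoDFA A Q) (w : List A) : Prop :=
  ∃ q ∈ D.final, ReflTransGen (D.Step w) (D.start, 0) (q, w.length + 2)

/-! ### (Once-marking) 1-limited automata -/

/-- The content of cell `i` when the input is `w` and exactly the cells in `M` hold a marked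
letter; the working alphabet is `A × Bool`, where `(a, true)` is the marked copy of `a` and
`(a, false)` is `a` itself. -/
def markedCell {A : Type} (w : List A) (M : Finset ℕ) (i : ℕ) : Cell (A × Bool) :=
  if i = 0 then Cell.lend
  else match w[i - 1]? with
    | some a => Cell.letter (a, decide (i ∈ M))
    | none => Cell.rend

/-- A (nondeterministic) 1-limited automaton with input alphabet `A`, working alphabet
`A` together with the marked copies of its letters, and set of states `Q`.
`(p, m, d) ∈ move q s` means: in state `q`, scanning `s`, the automaton may go to state `p`,
replace the scanned letter by its marked copy if `m = true` and leave it if `m = false`, and move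
the head one cell to the right if `d = true` and one cell to the left if `d = false`. -/
structure MLA (A Q : Type) where
  start : Q
  final : Set Q
  move : Q → Cell (A × Bool) → Set (Q × Bool × Bool)

/-- A configuration: state, head position, the set of marked cells, and the set of the cells
visited before the present visit. -/
structure Config (Q : Type) where
  state : Q
  pos : ℕ
  marks : Finset ℕ
  seen : Finset ℕ

/-- One move on input `w`. A cell can be marked only if it holds an input letter and is visited
for the first time. The head never leaves the tape to the left, and no move starts beyond the
right endmarker. -/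
def MLA.Step {A Q : Type} (M : MLA A Q) (w : List A) (c c' : Config Q) : Prop :=
  ∃ m d : Bool,
    (c'.state, m, d) ∈ M.move c.state (markedCell w c.marks c.pos) ∧
    c.pos ≤ w.length + 1 ∧
    (m = true → 1 ≤ c.pos ∧ c.pos ≤ w.length ∧ c.pos ∉ c.seen) ∧
    c'.marks = (if m = true then insert c.pos c.marks else c.marks) ∧
    c'.seen = insert c.pos c.seen ∧
    (if d = true then c'.pos = c.pos + 1 else c'.pos + 1 = c.pos)

/-- The initial configuration: initial state, head on the left endmarker, nothing marked. -/
def MLA.init {A Q : Type} (M : MLA A Q) : Config Q := ⟨M.start, 0, ∅, ∅⟩

/-- `w` is accepted: some computation leaves the right endmarker to the right in a final state. -/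
def MLA.Accepts {A Q : Type} (M : MLA A Q) (w : List A) : Prop :=
  ∃ c : Config Q, c.state ∈ M.final ∧ c.pos = w.length + 2 ∧ ReflTransGen (M.Step w) M.init c

/-- Once-marking: during each computation (on any input) at most one cell is marked. -/
def MLA.OnceMarking {A Q : Type} (M : MLA A Q) : Prop :=
  ∀ (w : List A) (c : Config Q), ReflTransGen (M.Step w) M.init c → c.marks.card ≤ 1

/-- Deterministic: at most one move for each state and scanned symbol. -/
def MLA.Deterministic {A Q : Type} (M : MLA A Q) : Prop :=
  ∀ (q : Q) (s : Cell (A × Bool)), (M.move q s).Subsingleton

end Pool.Agent.H617R2
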