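import Mathlib
import Pool.Agent.H617R2.Machines

set_option autoImplicit false
set_option linter.unusedSectionVars false
set_option linter.style.haveILetI false

namespace Pool.Agent.H617R2

open Relation

section Beh
variable {K S : Type}

/-- One step on the tape segment `x`; the positions `1, …, |x|` are inside the segment, the
positions `0` and `|x| + 1` outside. -/
def Seg (t : K → S → Set (K × Bool)) (x : List S) (c c' : K × ℕ) : Prop :=
  ∃ s d, 1 ≤ c.2 ∧ x[c.2 - 1]? = some s ∧ (c'.1, d) ∈ t c.1 s ∧
    (if d = true then c'.2 = c.2 + 1 else c'.2 + 1 = c.2)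

def inPos (x : List S) (e : Bool) : ℕ := if e then x.length else 1
def outPos (x : List S) (e : Bool) : ℕ := if e then x.length + 1 else 0

/-- Behaviour of the segment `x`: entering in state `p.1` from the left (`p.2 = false`) or from the
right (`p.2 = true`), the head may leave `x` in state `q.1` to the left (`q.2 = false`) or to the
right (`q.2 = true`). -/
def beh (t : K → S → Set (K × Bool)) (x : List S) : K × Bool → K × Bool → Prop :=
  fun p q => ReflTransGen (Seg t x) (p.1, inPos x p.2) (q.1, outPos x q.2)

variable (t : K → S → Set (K × Bool))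

lemma seg_left (x y : List S) (c c' : K × ℕ) (h : Seg t x c c') : Seg t (x ++ y) c c' := by
  obtain ⟨s, d, h1, h2, h3, h4⟩ := h
  refine ⟨s, d, h1, ?_, h3, h4⟩
  rw [List.getElem?_append_left]
  · exact h2
  · by_contra hcon
    rw [List.getElem?_eq_none (by omega)] at h2
    exact absurd h2 (by simp)

lemma seg_right (x y : List S) (c c' : K × ℕ) (h : Seg t y c c') :
    Seg t (x ++ y) (c.1, x.length + c.2) (c'.1, x.length + c'.2) := by
  obtain ⟨s, d, h1, h2, h3, h4⟩ := h
  refine ⟨s, d, by simp only; omega, ?_, h3, ?_⟩
  · simp only
    rw [List.getElem?_append_right (by omega)]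
    rw [← h2]
    congr 1
    omega
  · simp only
    split_ifs at h4 ⊢ <;> omega

lemma seg_inv_left (x y : List S) (c c' : K × ℕ) (h : Seg t (x ++ y) c c') (hc : c.2 ≤ x.length) :
    Seg t x c c' ∧ c'.2 ≤ x.length + 1 := by
  obtain ⟨s, d, h1, h2, h3, h4⟩ := h
  refine ⟨⟨s, d, h1, ?_, h3, h4⟩, by split_ifs at h4 <;> omega⟩
  rwa [List.getElem?_append_left (by omega)] at h2

lemma seg_inv_right (x y : List S) (c c' : K × ℕ) (h : Seg t (x ++ y) c c')
    (hc : x.length + 1 ≤ c.2) :
    Seg t y (c.1, c.2 - x.length) (c'.1, c'.2 - x.length) ∧ x.length ≤ c'.2 := by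
  obtain ⟨s, d, h1, h2, h3, h4⟩ := h
  refine ⟨⟨s, d, by simp only; omega, ?_, h3, ?_⟩, by split_ifs at h4 <;> omega⟩
  · rw [List.getElem?_append_right (by omega)] at h2
    rw [← h2]
    simp only
    congr 1
    omega
  · simp only
    split_ifs at h4 ⊢ <;> omega

/-- Behaviours are monotone under concatenation. -/
theorem beh_append_mono {x x' y y' : List S} (hx : ∀ p q, beh t x p q → beh t x' p q)
    (hy : ∀ p q, beh t y p q → beh t y' p q) (p e : K × Bool) (h : beh t (x ++ y) p e) :
    beh t (x' ++ y') p e := by
  set e' : K × ℕ := (e.1, outPos (x' ++ y') e.2) with he'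
  set T := ReflTransGen (Seg t (x' ++ y')) with hT
  have embX : ∀ c c' : K × ℕ, ReflTransGen (Seg t x') c c' → T c c' := fun c c' h =>
    ReflTransGen.mono (fun a b h => seg_left t x' y' a b h) _ _ h
  have embY : ∀ c c' : K × ℕ, ReflTransGen (Seg t y') c c' →
      T (c.1, x'.length + c.2) (c'.1, x'.length + c'.2) := fun c c' h =>
    ReflTransGen.lift (fun c : K × ℕ => (c.1, x'.length + c.2))
      (fun a b h => seg_right t x' y' a b h) _ _ h
  let P1 : K × ℕ → Prop := fun c => c.2 ≤ x.length + 1 →
    ∃ q : K × Bool, ReflTransGen (Seg t x) c (q.1, outPos x q.2) ∧ T (q.1, outPos x' q.2) e'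
  let P2 : K × ℕ → Prop := fun c => x.length ≤ c.2 →
    ∃ q : K × Bool, ReflTransGen (Seg t y) (c.1, c.2 - x.length) (q.1, outPos y q.2) ∧
      T (q.1, x'.length + outPos y' q.2) e'
  have conv12 : ∀ k, P1 (k, x.length) → P2 (k, x.length) := by
    intro k h _
    obtain ⟨q, hq1, hq2⟩ := h (by simp)
    refine ⟨(k, false), by simp [outPos]; exact ReflTransGen.refl, ?_⟩
    have h1 : beh t x (k, true) q := by simpa [beh, inPos] using hq1
    have h2 := embX _ _ (hx _ _ h1)
    simp only [inPos, if_true] at h2
    simpa [outPos] using h2.trans hq2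
  have conv21 : ∀ k, P2 (k, x.length + 1) → P1 (k, x.length + 1) := by
    intro k h _
    obtain ⟨q, hq1, hq2⟩ := h (by simp)
    refine ⟨(k, true), by simp [outPos]; exact ReflTransGen.refl, ?_⟩
    have h1 : beh t y (k, false) q := by simpa [beh, inPos] using hq1
    have h2 := embY _ _ (hy _ _ h1)
    simp only [inPos] at h2
    simpa [outPos] using h2.trans hq2
  have key : ∀ c, ReflTransGen (Seg t (x ++ y)) c (e.1, outPos (x ++ y) e.2) → P1 c ∧ P2 c := by
    intro c hc
    induction hc using ReflTransGen.head_induction_on with
    | refl =>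
      rcases e with ⟨k, e⟩
      cases e with
      | false =>
        have h1 : P1 (k, 0) := fun _ => ⟨(k, false), by simp [outPos]; exact ReflTransGen.refl, by
          simp only [he', outPos]; exact ReflTransGen.refl⟩
        refine ⟨by simpa [outPos] using h1, ?_⟩
        intro h2
        have h3 : x.length = 0 := by simpa [outPos] using h2
        have h4 := conv12 k (by rw [h3]; exact h1) le_rfl
        simpa [outPos, h3] using h4
      | true =>
        have h2 : P2 (k, (x ++ y).length + 1) := fun _ => ⟨(k, true), by
          have : (x ++ y).length + 1 - x.length = y.length + 1 := by simp; omega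
          simp only [this, outPos]; exact ReflTransGen.refl, by
          have : x'.length + outPos y' true = outPos (x' ++ y') true := by
            simp [outPos]; omega
          simp only [he', this]; exact ReflTransGen.refl⟩
        refine ⟨?_, by simpa [outPos] using h2⟩
        intro h1
        have h7 : (x ++ y).length = x.length + y.length := List.length_append
        have h3 : y.length = 0 := by
          have h1' : (x ++ y).length + 1 ≤ x.length + 1 := by simpa [outPos] using h1
          omega
        have h5 : (x ++ y).length + 1 = x.length + 1 := by omega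
        have h4 := conv21 k (by rw [← h5]; exact h2) le_rfl
        have h6 : outPos (x ++ y) true = x.length + 1 := by
          simp only [outPos, if_true]; omega
        simp only [h6]
        exact h4
    | @head c c1 hs htail ih =>
      obtain ⟨ih1, ih2⟩ := ih
      rcases Nat.lt_or_ge x.length c.2 with hlt | hge
      · obtain ⟨hs', hle⟩ := seg_inv_right t x y c c1 hs hlt
        have h2 : P2 c := by
          intro _
          obtain ⟨q, hq1, hq2⟩ := ih2 hle
          exact ⟨q, ReflTransGen.head hs' hq1, hq2⟩
        refine ⟨?_, h2⟩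
        intro h1
        have h3 : c.2 = x.length + 1 := by omega
        have h4 := conv21 c.1 (by rw [← h3]; exact h2) le_rfl
        rw [← h3] at h4
        exact h4
      · obtain ⟨hs', hle⟩ := seg_inv_left t x y c c1 hs hge
        have h1 : P1 c := by
          intro _
          obtain ⟨q, hq1, hq2⟩ := ih1 hle
          exact ⟨q, ReflTransGen.head hs' hq1, hq2⟩
        refine ⟨h1, ?_⟩
        intro h2
        have h3 : c.2 = x.length := by omega
        have h4 := conv12 c.1 (by rw [← h3]; exact h1) le_rfl
        have h5 : c.2 - x.length = x.length - x.length := by omega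
        simp only [h5]
        exact h4
  obtain ⟨k1, k2⟩ := key _ h
  rcases p with ⟨k, p⟩
  cases p with
  | false =>
    obtain ⟨q, hq1, hq2⟩ := k1 (by simp [inPos])
    have h1 : beh t x (k, false) q := by simpa [beh, inPos] using hq1
    have h2 := embX _ _ (hx _ _ h1)
    have h3 := h2.trans hq2
    simpa [beh, inPos] using h3
  | true =>
    obtain ⟨q, hq1, hq2⟩ := k2 (by simp [inPos])
    have h1 : beh t y (k, true) q := by
      have : (x ++ y).length - x.length = y.length := by simp
      simpa [beh, inPos, this] using hq1
    have h2 := embY _ _ (hy _ _ h1)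
    have h3 := h2.trans hq2
    simpa [beh, inPos] using h3

theorem beh_append_congr {x x' y y' : List S} (hx : beh t x = beh t x')
    (hy : beh t y = beh t y') : beh t (x ++ y) = beh t (x' ++ y') := by
  funext p e
  apply propext
  constructor
  · exact beh_append_mono t (fun p q h => hx ▸ h) (fun p q h => hy ▸ h) p e
  · exact beh_append_mono t (fun p q h => hx.symm ▸ h) (fun p q h => hy.symm ▸ h) p e

end Beh

end Pool.Agent.H617R2
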