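import Mathlib

set_option autoImplicit false

namespace Pool.Agent.H617R2

open Relation

/-- Orbits of a reversible partial map on a finite set: starting from the time reversal of an exit
configuration, the orbit leaves through a different exit configuration. -/
theorem reversible_orbit {C : Type} (f : C → Option C) (ρ : C → C) (X : Set C) (hX : X.Finite)
    (E : Set C) (hρρ : ∀ c, ρ (ρ c) = c) (hρne : ∀ c, ρ c ≠ c)
    (hf : ∀ c ∈ X, c ∉ E → ∃ c' ∈ X, f c = some c' ∧ ρ c' ∉ E ∧ f (ρ c') = some (ρ c) ∧ c' ≠ ρ c)
    (s0 : C) (hs0 : s0 ∈ X) (hs0E : ρ s0 ∈ E) :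
    ∃ e ∈ E, e ∈ X ∧ e ≠ ρ s0 ∧
      ReflTransGen (fun a b => f a = some b ∧ a ∈ X ∧ a ∉ E ∧ b ∈ X) s0 e := by
  classical
  set g : C → C := fun c => (f c).getD c with hg
  set s : ℕ → C := fun k => g^[k] s0 with hs
  have s_zero : s 0 = s0 := rfl
  have s_succ : ∀ k, s (k + 1) = g (s k) := fun k => by
    simp only [hs, Function.iterate_succ_apply']
  -- one step
  have hstep : ∀ k, s k ∈ X → s k ∉ E → s (k + 1) ∈ X ∧ f (s k) = some (s (k + 1)) ∧
      ρ (s (k + 1)) ∉ E ∧ f (ρ (s (k + 1))) = some (ρ (s k)) ∧ s (k + 1) ≠ ρ (s k) := by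
    intro k hk hkE
    obtain ⟨c', hc'X, hfc, h1, h2, h3⟩ := hf _ hk hkE
    have : s (k + 1) = c' := by rw [s_succ, hg]; simp [hfc]
    rw [this]
    exact ⟨hc'X, hfc, h1, h2, h3⟩
  have hex : ∃ k, s k ∈ E := by
    by_contra hno
    push Not at hno
    have hin : ∀ k, s k ∈ X := by
      intro k
      induction k with
      | zero => exact hs0
      | succ k ih => exact (hstep k ih (hno k)).1
    have hinj : ∀ a b, a < b → s a = s b → False := by
      intro a
      induction a with
      | zero =>
        intro b hb hab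
        obtain ⟨b', rfl⟩ : ∃ b', b = b' + 1 := ⟨b - 1, by omega⟩
        have h := (hstep b' (hin b') (hno b')).2.2.1
        rw [← hab, s_zero] at h
        exact h hs0E
      | succ a ih =>
        intro b hb hab
        obtain ⟨b', rfl⟩ : ∃ b', b = b' + 1 := ⟨b - 1, by omega⟩
        have h1 := (hstep a (hin a) (hno a)).2.2.2.1
        have h2 := (hstep b' (hin b') (hno b')).2.2.2.1
        rw [hab, h2] at h1
        have h3 : ρ (s b') = ρ (s a) := Option.some.inj h1
        have h4 : s b' = s a := by rw [← hρρ (s b'), h3, hρρ]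
        exact ih b' (by omega) h4.symm
    have : Finite X := hX
    obtain ⟨a, b, hab, hne⟩ := Finite.exists_ne_map_eq_of_infinite (fun k : ℕ => (⟨s k, hin k⟩ : X))
    have hne' : s a = s b := congrArg Subtype.val hne
    rcases lt_or_gt_of_ne hab with h | h
    · exact hinj a b h hne'
    · exact hinj b a h hne'.symm
  have hKs : s (Nat.find hex) ∈ E := Nat.find_spec hex
  have hKmin : ∀ k, k < Nat.find hex → s k ∉ E := fun k hk => Nat.find_min hex hk
  generalize Nat.find hex = K at hKs hKmin
  have hin : ∀ k, k ≤ K → s k ∈ X := by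
    intro k
    induction k with
    | zero => intro _; exact hs0
    | succ k ih => intro hk; exact (hstep k (ih (by omega)) (hKmin k (by omega))).1
  have hst : ∀ k, k < K → s (k + 1) ∈ X ∧ f (s k) = some (s (k + 1)) ∧
      ρ (s (k + 1)) ∉ E ∧ f (ρ (s (k + 1))) = some (ρ (s k)) ∧ s (k + 1) ≠ ρ (s k) :=
    fun k hk => hstep k (hin k hk.le) (hKmin k hk)
  refine ⟨s K, hKs, hin K le_rfl, ?_, ?_⟩
  · intro hcon
    have hpal : ∀ t, t ≤ K → s (K - t) = ρ (s t) := by
      intro t
      induction t with
      | zero => intro _; simpa [s_zero] using hcon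
      | succ t ih =>
        intro ht
        have h1 := ih (by omega)
        have h2 := hst (K - (t + 1)) (by omega)
        have h3 : K - (t + 1) + 1 = K - t := by omega
        rw [h3] at h2
        have h4 := h2.2.2.2.1
        rw [h1, hρρ] at h4
        have h5 := (hst t (by omega)).2.1
        rw [h4] at h5
        have h6 : ρ (s (K - (t + 1))) = s (t + 1) := Option.some.inj h5
        rw [← h6, hρρ]
    rcases Nat.even_or_odd' K with ⟨r, hr | hr⟩
    · have h := hpal r (by omega)
      have : K - r = r := by omega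
      rw [this] at h
      exact hρne _ h.symm
    · have h := hpal r (by omega)
      have : K - r = r + 1 := by omega
      rw [this] at h
      exact (hst r (by omega)).2.2.2.2 h
  · have : ∀ k, k ≤ K → ReflTransGen (fun a b => f a = some b ∧ a ∈ X ∧ a ∉ E ∧ b ∈ X) s0 (s k) := by
      intro k
      induction k with
      | zero => intro _; exact ReflTransGen.refl
      | succ k ih =>
        intro hk
        exact (ih (by omega)).tail ⟨(hst k (by omega)).2.1, hin k (by omega), hKmin k (by omega),
          hin (k + 1) hk⟩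
    exact this K le_rfl

end Pool.Agent.H617R2
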