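import Mathlib
import Pool.Agent.H617R2.Orbit

set_option autoImplicit false
set_option linter.unusedSectionVars false
set_option linter.style.haveILetI false

namespace Pool.Agent.H617R2

open Relation

section Order
variable {B : Type} [LinearOrder B]

/-- `y` lies beyond `x` in direction `σ` (`true`: upwards, `false`: downwards). -/
def Beyond (σ : Bool) (x y : B) : Prop := if σ then x < y else y < x

lemma Beyond.flip {σ : Bool} {x y : B} (h : Beyond σ x y) : Beyond (!σ) y x := by
  cases σ <;> simpa [Beyond] using h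

lemma not_beyond_self (σ : Bool) (x : B) : ¬ Beyond σ x x := by
  cases σ <;> simp [Beyond]

lemma Beyond.trans {σ : Bool} {x y z : B} (h : Beyond σ x y) (h' : Beyond σ y z) :
    Beyond σ x z := by
  cases σ
  · simp only [Beyond] at *; exact lt_trans h' h
  · simp only [Beyond] at *; exact lt_trans h h'

lemma beyond_trichotomy (σ : Bool) (x y : B) : Beyond σ x y ∨ x = y ∨ Beyond σ y x := by
  cases σ
  · simp only [Beyond]; rcases lt_trichotomy x y with h | h | h <;> simp [h]
  · simp only [Beyond]; rcases lt_trichotomy x y with h | h | h <;> simp [h]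

open Classical in
/-- The element satisfying `p` that is extreme in direction `σ`. -/
noncomputable def ext (σ : Bool) (p : B → Prop) : Option B :=
  if h : ∃ b, p b ∧ ∀ c, p c → ¬ Beyond σ b c then some h.choose else none

lemma ext_spec {σ : Bool} {p : B → Prop} {b : B} (h : ext σ p = some b) :
    p b ∧ ∀ c, p c → ¬ Beyond σ b c := by
  classical
  unfold ext at h
  split_ifs at h with hh
  · have := Option.some.inj h
    rw [← this]
    exact hh.choose_spec

lemma ext_eq_some {σ : Bool} {p : B → Prop} {b : B} (h1 : p b) (h2 : ∀ c, p c → ¬ Beyond σ b c) :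
    ext σ p = some b := by
  classical
  have hh : ∃ b, p b ∧ ∀ c, p c → ¬ Beyond σ b c := ⟨b, h1, h2⟩
  unfold ext
  rw [dif_pos hh]
  congr 1
  obtain ⟨h3, h4⟩ := hh.choose_spec
  rcases beyond_trichotomy σ b hh.choose with h | h | h
  · exact absurd h (h2 _ h3)
  · exact h.symm
  · exact absurd h (h4 _ h1)

lemma ext_eq_none [Finite B] {σ : Bool} {p : B → Prop} (h : ext σ p = none) : ∀ b, ¬ p b := by
  classical
  intro b hb
  haveI := Fintype.ofFinite B
  have hne : (Finset.univ.filter p).Nonempty := ⟨b, by simp [hb]⟩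
  cases σ
  · have h1 : ext false p = some ((Finset.univ.filter p).min' hne) := by
      apply ext_eq_some
      · exact (Finset.mem_filter.1 (Finset.min'_mem _ hne)).2
      · intro c hc hcon
        simp only [Beyond] at hcon
        exact absurd (Finset.min'_le _ c (by simp [hc])) (not_le.2 hcon)
    rw [h1] at h
    exact absurd h (by simp)
  · have h1 : ext true p = some ((Finset.univ.filter p).max' hne) := by
      apply ext_eq_some
      · exact (Finset.mem_filter.1 (Finset.max'_mem _ hne)).2
      · intro c hc hcon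
        simp only [Beyond] at hcon
        exact absurd (Finset.le_max' _ c (by simp [hc])) (not_le.2 hcon)
    rw [h1] at h
    exact absurd h (by simp)

lemma ext_none_of {σ : Bool} {p : B → Prop} (h : ∀ b, ¬ p b) : ext σ p = none := by
  classical
  unfold ext
  rw [dif_neg]
  rintro ⟨b, hb, -⟩
  exact h b hb

/-- The element satisfying `p` that is nearest to `x` among those beyond `x` in direction `σ`. -/
noncomputable def nxt (σ : Bool) (x : B) (p : B → Prop) : Option B :=
  ext (!σ) (fun b => p b ∧ Beyond σ x b)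

end Order

section Walk
variable {B : Type} [LinearOrder B] [Finite B]

open Classical in
/-- extreme child of the node `τ.1` on level `j` -/
noncomputable def chl (D : ℕ → B → B) (b0 : B) (j : ℕ) (τ : B × Bool) : Option B :=
  if j = 0 then (if τ.1 = b0 then some b0 else none) else ext τ.2 (fun p => D j p = τ.1)

/-- next sibling of the node `τ.1` on level `j` -/
noncomputable def sib (D : ℕ → B → B) (j : ℕ) (τ : B × Bool) : Option B :=
  nxt τ.2 τ.1 (fun p => D (j + 1) p = D (j + 1) τ.1)

def bounce (τ : B × Bool) : Option B → B × Bool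
  | none => (τ.1, !τ.2)
  | some _ => τ

def turn (τ : B × Bool) : Option B → B × Bool
  | none => τ
  | some x => (x, !τ.2)

/-- result of arriving on a level going down -/
def downRes (j : ℕ) (a b : B × Bool) : Option B → Option B → Option (ℕ × (B × Bool) × (B × Bool) × Bool)
  | some x, some y => if j = 0 then none else some (j - 1, (x, a.2), (y, b.2), false)
  | ca, cb => some (j, bounce a ca, bounce b cb, true)

/-- result of going up -/
def upRes (D : ℕ → B → B) (j : ℕ) (a b : B × Bool) :
    Option B → Option B → Option (ℕ × (B × Bool) × (B × Bool) × Bool)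
  | none, none => some (j + 1, (D (j + 1) a.1, a.2), (D (j + 1) b.1, b.2), true)
  | sa, sb => some (j, turn a sa, turn b sb, false)

open Classical in
/-- the joint walk of the two tokens -/
noncomputable def wstep (D : ℕ → B → B) (b0 : B) :
    ℕ × (B × Bool) × (B × Bool) × Bool → Option (ℕ × (B × Bool) × (B × Bool) × Bool)
  | (j, a, b, false) => downRes j a b (chl D b0 j a) (chl D b0 j b)
  | (j, a, b, true) => if D (j + 1) a.1 = D (j + 1) b.1 then none
      else upRes D j a b (sib D j a) (sib D j b)

/-- time reversal -/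
def rev (c : ℕ × (B × Bool) × (B × Bool) × Bool) : ℕ × (B × Bool) × (B × Bool) × Bool :=
  (c.1, c.2.1, c.2.2.1, !c.2.2.2)

/-- image on level `j + k` of the node `x` on level `j` -/
def run (D : ℕ → B → B) : ℕ → ℕ → B → B
  | _, 0, x => x
  | j, k + 1, x => run D (j + 1) k (D (j + 1) x)

/-- the main path -/
def mainP (D : ℕ → B → B) (b0 : B) : ℕ → B
  | 0 => b0
  | j + 1 => D (j + 1) (mainP D b0 j)

/-- `x` on level `j` lies to the left of the main path -/
def LO (D : ℕ → B → B) (b0 : B) : ℕ → ℕ → B → Prop
  | 0, _, _ => False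
  | k + 1, j, x => (D (j + 1) x = mainP D b0 (j + 1) ∧ x < mainP D b0 j) ∨
      LO D b0 k (j + 1) (D (j + 1) x)

variable (D : ℕ → B → B) (b0 : B)

lemma LO_ne : ∀ (k j : ℕ) (x : B), LO D b0 k j x → x ≠ mainP D b0 j
  | 0, _, _, h => absurd h (by simp [LO])
  | k + 1, j, x, h => by
    rcases h with ⟨-, h⟩ | h
    · exact ne_of_lt h
    · have := LO_ne k (j + 1) _ h
      rintro rfl
      exact this rfl

omit [Finite B] in
lemma chl_zero (τ : B × Bool) [Decidable (τ.1 = b0)] :
    chl D b0 0 τ = if τ.1 = b0 then some b0 else none := by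
  unfold chl; simp

omit [Finite B] in
lemma chl_succ (j : ℕ) (τ : B × Bool) :
    chl D b0 (j + 1) τ = ext τ.2 (fun p => D (j + 1) p = τ.1) := by
  unfold chl; simp

lemma chl_none_flip (j : ℕ) (x : B) (σ : Bool) (h : chl D b0 j (x, σ) = none) :
    chl D b0 j (x, !σ) = none := by
  classical
  cases j with
  | zero => rw [chl_zero] at *; exact h
  | succ j =>
    rw [chl_succ] at *
    exact ext_none_of (ext_eq_none h)

lemma chl_succ_spec (j : ℕ) (x z : B) (σ : Bool) (h : chl D b0 (j + 1) (z, σ) = some x) :
    D (j + 1) x = z ∧ sib D j (x, σ) = none := by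
  rw [chl_succ] at h
  obtain ⟨h1, h2⟩ := ext_spec h
  refine ⟨h1, ?_⟩
  unfold sib nxt
  apply ext_none_of
  rintro b ⟨hb1, hb2⟩
  simp only at h1 hb1 hb2 h2
  exact h2 b (by rw [hb1, h1]) hb2

lemma chl_of_sib_none (j : ℕ) (x : B) (σ : Bool) (h : sib D j (x, σ) = none) :
    chl D b0 (j + 1) (D (j + 1) x, σ) = some x := by
  rw [chl_succ]
  unfold sib nxt at h
  have := ext_eq_none h
  refine ext_eq_some (p := fun p => D (j + 1) p = D (j + 1) x) rfl ?_
  intro c hc hcon
  exact this c ⟨hc, hcon⟩

lemma sib_turn (j : ℕ) (x x' : B) (σ : Bool) (h : sib D j (x, σ) = some x') :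
    D (j + 1) x' = D (j + 1) x ∧ x' ≠ x ∧ Beyond σ x x' ∧
      (∀ c, D (j + 1) c = D (j + 1) x → Beyond σ x c → ¬ Beyond (!σ) x' c) ∧
      sib D j (x', !σ) = some x := by
  unfold sib nxt at h
  obtain ⟨⟨h1, h2⟩, h3⟩ := ext_spec h
  simp only at h1 h2 h3
  refine ⟨h1, ?_, h2, fun c hc hc' => h3 c ⟨hc, hc'⟩, ?_⟩
  · rintro rfl
    exact not_beyond_self _ _ h2
  · unfold sib nxt
    apply ext_eq_some
    · exact ⟨h1.symm, h2.flip⟩
    · rintro c ⟨hc1, hc2⟩ hcon
      simp only [Bool.not_not] at hcon
      exact h3 c ⟨by rw [hc1, h1], hcon⟩ hc2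

lemma wstep_false (j : ℕ) (a b : B × Bool) :
    wstep D b0 (j, a, b, false) = downRes j a b (chl D b0 j a) (chl D b0 j b) := rfl

lemma wstep_true (j : ℕ) (a b : B × Bool) (h : D (j + 1) a.1 ≠ D (j + 1) b.1) :
    wstep D b0 (j, a, b, true) = upRes D j a b (sib D j a) (sib D j b) := by
  have : wstep D b0 (j, a, b, true) = if D (j + 1) a.1 = D (j + 1) b.1 then none
      else upRes D j a b (sib D j a) (sib D j b) := rfl
  rw [this, if_neg h]

lemma downRes_both (j : ℕ) (a b : B × Bool) (x y : B) (hj : j ≠ 0) :
    downRes j a b (some x) (some y) = some (j - 1, (x, a.2), (y, b.2), false) := by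
  simp [downRes, hj]

lemma downRes_not (j : ℕ) (a b : B × Bool) (ca cb : Option B) (h : ca = none ∨ cb = none) :
    downRes j a b ca cb = some (j, bounce a ca, bounce b cb, true) := by
  rcases ca with _ | x <;> rcases cb with _ | y <;> simp_all [downRes]

lemma upRes_not (j : ℕ) (a b : B × Bool) (sa sb : Option B) (h : sa ≠ none ∨ sb ≠ none) :
    upRes D j a b sa sb = some (j, turn a sa, turn b sb, false) := by
  rcases sa with _ | x <;> rcases sb with _ | y <;> simp_all [upRes]

/-- alive configurations: two tokens in different subtrees hanging from level `t` -/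
def alive (t : ℕ) (pa pb : B) : Set (ℕ × (B × Bool) × (B × Bool) × Bool) :=
  {c | c.1 ≤ t ∧ run D c.1 (t - c.1) c.2.1.1 = pa ∧ run D c.1 (t - c.1) c.2.2.1.1 = pb}

def exits (t : ℕ) : Set (ℕ × (B × Bool) × (B × Bool) × Bool) := {c | c.1 = t ∧ c.2.2.2 = true}

omit [LinearOrder B] in
lemma alive_finite (t : ℕ) (pa pb : B) : (alive D t pa pb).Finite := by
  apply Set.Finite.subset ((Set.finite_Iic t).prod (Set.finite_univ (α := (B × Bool) × (B × Bool) × Bool)))
  rintro ⟨j, r⟩ h
  exact ⟨h.1, Set.mem_univ _⟩

omit [LinearOrder B] [Finite B] in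
lemma run_step (t j : ℕ) (x : B) (h : j < t) :
    run D j (t - j) x = run D (j + 1) (t - (j + 1)) (D (j + 1) x) := by
  have : t - j = (t - (j + 1)) + 1 := by omega
  rw [this]
  rfl

omit [Finite B] [LinearOrder B] in
lemma turn_fst_image (a : B × Bool) (j : ℕ) (sa : Option B)
    (h : ∀ x, sa = some x → D (j + 1) x = D (j + 1) a.1) :
    D (j + 1) (turn a sa).1 = D (j + 1) a.1 := by
  rcases sa with _ | x
  · rfl
  · exact h x rfl

lemma turn_turn (a : B × Bool) (j : ℕ) : turn (turn a (sib D j a)) (sib D j (turn a (sib D j a))) = a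
    ∧ (sib D j (turn a (sib D j a)) = none ↔ sib D j a = none) ∧
    (sib D j a ≠ none → turn a (sib D j a) ≠ a) := by
  rcases h : sib D j a with _ | x
  · simp [turn, h]
  · obtain ⟨h1, h2, h3, h4, h5⟩ := sib_turn D j a.1 x a.2 h
    simp only [turn, h5]
    refine ⟨by simp, by simp, fun _ hcon => h2 ?_⟩
    rw [← hcon]

lemma bounce_bounce (a : B × Bool) (j : ℕ) :
    bounce (bounce a (chl D b0 j a)) (chl D b0 j (bounce a (chl D b0 j a))) = a ∧
    (chl D b0 j (bounce a (chl D b0 j a)) = none ↔ chl D b0 j a = none) ∧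
    (chl D b0 j a = none → bounce a (chl D b0 j a) ≠ a) := by
  rcases h : chl D b0 j a with _ | x
  · have h' := chl_none_flip D b0 j a.1 a.2 h
    simp only [bounce, h']
    refine ⟨by simp, by simp, fun _ hcon => ?_⟩
    have := congrArg Prod.snd hcon
    simp at this
  · simp [bounce, h]

theorem wstep_reversible (t : ℕ) (pa pb : B) (hne : pa ≠ pb)
    (c : ℕ × (B × Bool) × (B × Bool) × Bool) (hc : c ∈ alive D t pa pb) (hE : c ∉ exits t) :
    ∃ c' ∈ alive D t pa pb, wstep D b0 c = some c' ∧ rev c' ∉ exits t ∧
      wstep D b0 (rev c') = some (rev c) ∧ c' ≠ rev c := by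
  classical
  obtain ⟨j, a, b, h⟩ := c
  obtain ⟨hj, ha, hb⟩ := hc
  simp only at hj ha hb
  have hab : a.1 ≠ b.1 := by
    intro hab; rw [hab] at ha; exact hne (ha.symm.trans hb)
  cases h with
  | false =>
    rw [wstep_false]
    by_cases hboth : chl D b0 j a ≠ none ∧ chl D b0 j b ≠ none
    · obtain ⟨x, hx⟩ := Option.ne_none_iff_exists'.1 hboth.1
      obtain ⟨y, hy⟩ := Option.ne_none_iff_exists'.1 hboth.2
      rcases j with _ | j
      · exfalso
        rw [chl_zero] at hx hy
        split_ifs at hx hy with h1 h2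
        exact hab (h1.trans h2.symm)
      · obtain ⟨hx1, hx2⟩ := chl_succ_spec D b0 j x a.1 a.2 hx
        obtain ⟨hy1, hy2⟩ := chl_succ_spec D b0 j y b.1 b.2 hy
        refine ⟨(j, (x, a.2), (y, b.2), false), ⟨by simp; omega, ?_, ?_⟩, ?_, ?_, ?_, ?_⟩
        · simp only
          rw [run_step D t j x (by omega), hx1, ha]
        · simp only
          rw [run_step D t j y (by omega), hy1, hb]
        · rw [hx, hy, downRes_both _ _ _ _ _ (by omega)]; simp
        · simp [exits, rev]; omega
        · have : rev (j, (x, a.2), (y, b.2), false) = (j, (x, a.2), (y, b.2), true) := rfl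
          rw [this, wstep_true]
          · rw [hx2, hy2]
            simp [upRes, rev, hx1, hy1]
          · simp only [hx1, hy1]; exact hab
        · intro hcon
          have := congrArg Prod.fst hcon
          simp [rev] at this
    · have hboth' : chl D b0 j a = none ∨ chl D b0 j b = none := by
        by_contra hcon; push Not at hcon; exact hboth hcon
      obtain ⟨a1, a2, a3⟩ := bounce_bounce D b0 a j
      obtain ⟨b1, b2, b3⟩ := bounce_bounce D b0 b j
      refine ⟨(j, bounce a (chl D b0 j a), bounce b (chl D b0 j b), true), ⟨hj, ?_, ?_⟩, ?_, ?_, ?_, ?_⟩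
      · simp only
        have : (bounce a (chl D b0 j a)).1 = a.1 := by rcases chl D b0 j a with _ | x <;> rfl
        rw [this, ha]
      · simp only
        have : (bounce b (chl D b0 j b)).1 = b.1 := by rcases chl D b0 j b with _ | x <;> rfl
        rw [this, hb]
      · exact downRes_not _ _ _ _ _ hboth'
      · simp [exits, rev]
      · have : rev (j, bounce a (chl D b0 j a), bounce b (chl D b0 j b), true)
          = (j, bounce a (chl D b0 j a), bounce b (chl D b0 j b), false) := rfl
        rw [this, wstep_false, downRes_not, a1, b1]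
        · rfl
        · rw [a2, b2]; exact hboth'
      · intro hcon
        simp only [rev, Prod.mk.injEq, true_and] at hcon
        rcases hboth' with h | h
        · exact a3 h hcon.1
        · exact b3 h hcon.2.1
  | true =>
    have hjt : j < t := by
      rcases lt_or_eq_of_le hj with h | h
      · exact h
      · exact absurd ⟨h, rfl⟩ hE
    rw [run_step D t j _ hjt] at ha hb
    have hD : D (j + 1) a.1 ≠ D (j + 1) b.1 := by
      intro hcon; rw [hcon] at ha; exact hne (ha.symm.trans hb)
    rw [wstep_true _ _ _ _ _ hD]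
    by_cases hboth : sib D j a = none ∧ sib D j b = none
    · refine ⟨(j + 1, (D (j + 1) a.1, a.2), (D (j + 1) b.1, b.2), true), ⟨hjt, ha, hb⟩, ?_, ?_, ?_, ?_⟩
      · rw [hboth.1, hboth.2]; rfl
      · simp [exits, rev]
      · have : rev (j + 1, (D (j + 1) a.1, a.2), (D (j + 1) b.1, b.2), true) =
          (j + 1, (D (j + 1) a.1, a.2), (D (j + 1) b.1, b.2), false) := rfl
        rw [this, wstep_false, chl_of_sib_none D b0 j a.1 a.2 hboth.1,
          chl_of_sib_none D b0 j b.1 b.2 hboth.2, downRes_both _ _ _ _ _ (by omega)]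
        simp [rev]
      · intro hcon
        have := congrArg Prod.fst hcon
        simp [rev] at this
    · have hboth' : sib D j a ≠ none ∨ sib D j b ≠ none := by
        by_contra hcon; push Not at hcon; exact hboth hcon
      obtain ⟨a1, a2, a3⟩ := turn_turn D a j
      obtain ⟨b1, b2, b3⟩ := turn_turn D b j
      have hDa : D (j + 1) (turn a (sib D j a)).1 = D (j + 1) a.1 :=
        turn_fst_image D a j _ (fun x hx => (sib_turn D j a.1 x a.2 hx).1)
      have hDb : D (j + 1) (turn b (sib D j b)).1 = D (j + 1) b.1 :=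
        turn_fst_image D b j _ (fun x hx => (sib_turn D j b.1 x b.2 hx).1)
      refine ⟨(j, turn a (sib D j a), turn b (sib D j b), false), ⟨hj, ?_, ?_⟩, ?_, ?_, ?_, ?_⟩
      · simp only
        rw [run_step D t j _ hjt, hDa, ha]
      · simp only
        rw [run_step D t j _ hjt, hDb, hb]
      · exact upRes_not _ _ _ _ _ _ hboth'
      · simp [exits, rev]; omega
      · have : rev (j, turn a (sib D j a), turn b (sib D j b), false)
          = (j, turn a (sib D j a), turn b (sib D j b), true) := rfl
        rw [this, wstep_true _ _ _ _ _ (by rw [hDa, hDb]; exact hD), upRes_not, a1, b1]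
        · rfl
        · rw [Ne, Ne, a2, b2]; exact hboth'
      · intro hcon
        simp only [rev, Prod.mk.injEq, true_and] at hcon
        rcases hboth' with h | h
        · exact a3 h hcon.1
        · exact b3 h hcon.2.1

/-- the token is at or to the left of the main path -/
def Lf (t j : ℕ) (τ : B × Bool) : Prop :=
  (τ.1 = mainP D b0 j ∧ τ.2 = false) ∨ LO D b0 (t - j) j τ.1

lemma LO_step (t j : ℕ) (x : B) (h : j < t) :
    LO D b0 (t - j) j x ↔ ((D (j + 1) x = mainP D b0 (j + 1) ∧ x < mainP D b0 j) ∨
      LO D b0 (t - (j + 1)) (j + 1) (D (j + 1) x)) := by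
  have : t - j = (t - (j + 1)) + 1 := by omega
  rw [this]
  rfl

lemma Lf_child (t j : ℕ) (z x : B) (σ : Bool) (hj : j < t) (h : chl D b0 (j + 1) (z, σ) = some x)
    (hL : Lf D b0 t (j + 1) (z, σ)) : Lf D b0 t j (x, σ) := by
  have hh := chl_succ_spec D b0 j x z σ h
  rw [chl_succ] at h
  obtain ⟨h1, h2⟩ := ext_spec h
  simp only at h1 h2
  rcases hL with ⟨h3, h4⟩ | h3
  · simp only at h3 h4
    subst h4
    rcases lt_trichotomy x (mainP D b0 j) with h5 | h5 | h5
    · right
      rw [LO_step D b0 t j x hj]
      left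
      exact ⟨h1.trans h3, h5⟩
    · left; exact ⟨h5, rfl⟩
    · exfalso
      refine h2 (mainP D b0 j) ?_ (by simpa [Beyond] using h5)
      rw [h3]; rfl
  · right
    rw [LO_step D b0 t j x hj]
    right
    simp only at h3
    simp only [h1]
    exact h3

lemma main_has_child (j : ℕ) (σ : Bool) : chl D b0 j (mainP D b0 j, σ) ≠ none := by
  classical
  cases j with
  | zero => rw [chl_zero]; simp [mainP]
  | succ j =>
    rw [chl_succ]
    intro h
    exact ext_eq_none h (mainP D b0 j) rfl

lemma Lf_bounce (t j : ℕ) (τ : B × Bool) (hL : Lf D b0 t j τ) :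
    Lf D b0 t j (bounce τ (chl D b0 j τ)) := by
  rcases h : chl D b0 j τ with _ | x
  · rcases hL with ⟨h3, h4⟩ | h3
    · exfalso
      have := main_has_child D b0 j τ.2
      rw [← h3] at this
      exact this h
    · right; exact h3
  · exact hL

lemma Lf_up (t j : ℕ) (τ : B × Bool) (hj : j < t) (h : sib D j τ = none) (hL : Lf D b0 t j τ) :
    Lf D b0 t (j + 1) (D (j + 1) τ.1, τ.2) := by
  rcases hL with ⟨h3, h4⟩ | h3
  · left; exact ⟨by simp only [h3]; rfl, h4⟩
  · rw [LO_step D b0 t j _ hj] at h3
    rcases h3 with ⟨h5, h6⟩ | h5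
    · left
      refine ⟨h5, ?_⟩
      simp only
      by_contra hcon
      have hτ : τ.2 = true := by simpa using hcon
      unfold sib nxt at h
      refine ext_eq_none h (mainP D b0 j) ⟨?_, ?_⟩
      · rw [h5]; rfl
      · simp [Beyond, hτ, h6]
    · right; exact h5

lemma Lf_turn (t j : ℕ) (τ : B × Bool) (hj : j < t) (hL : Lf D b0 t j τ) :
    Lf D b0 t j (turn τ (sib D j τ)) := by
  rcases h : sib D j τ with _ | x
  · exact hL
  · obtain ⟨h1, h2, h3, h4, h5⟩ := sib_turn D j τ.1 x τ.2 h
    rcases hL with ⟨h6, h7⟩ | h6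
    · right
      rw [LO_step D b0 t j _ hj]
      left
      simp only [turn]
      refine ⟨by rw [h1, h6]; rfl, ?_⟩
      rw [← h6]
      simpa [Beyond, h7] using h3
    · rw [LO_step D b0 t j _ hj] at h6
      rcases h6 with ⟨h8, h9⟩ | h8
      · rcases lt_trichotomy x (mainP D b0 j) with h10 | h10 | h10
        · right
          rw [LO_step D b0 t j _ hj]
          left
          exact ⟨by simp only [turn]; rw [h1, h8], h10⟩
        · left
          refine ⟨h10, ?_⟩
          simp only [turn]
          cases hτ : τ.2 with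
          | true => rfl
          | false =>
            exfalso
            simp only [hτ, Beyond, Bool.false_eq_true, if_false] at h3
            rw [h10] at h3
            exact absurd h3 (not_lt.2 h9.le)
        · exfalso
          cases hτ : τ.2 with
          | true =>
            refine h4 (mainP D b0 j) (by rw [h8]; rfl) ?_ ?_
            · simp [Beyond, hτ, h9]
            · simp [Beyond, hτ, h10]
          | false =>
            simp only [hτ, Beyond, Bool.false_eq_true, if_false] at h3
            exact absurd (lt_trans h3 h9) (not_lt.2 h10.le)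
      · right
        rw [LO_step D b0 t j _ hj]
        right
        simp only [turn, h1]
        exact h8

lemma Lf_wstep (t : ℕ) (pa pb : B) (c c' : ℕ × (B × Bool) × (B × Bool) × Bool)
    (hc : c ∈ alive D t pa pb) (hE : c ∉ exits t) (hs : wstep D b0 c = some c') :
    (Lf D b0 t c.1 c.2.1 → Lf D b0 t c'.1 c'.2.1) ∧
    (Lf D b0 t c.1 c.2.2.1 → Lf D b0 t c'.1 c'.2.2.1) := by
  classical
  obtain ⟨j, a, b, h⟩ := c
  obtain ⟨hj, ha, hb⟩ := hc
  simp only at hj ha hb
  cases h with
  | false =>
    rw [wstep_false] at hs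
    by_cases hboth : chl D b0 j a ≠ none ∧ chl D b0 j b ≠ none
    · obtain ⟨x, hx⟩ := Option.ne_none_iff_exists'.1 hboth.1
      obtain ⟨y, hy⟩ := Option.ne_none_iff_exists'.1 hboth.2
      rw [hx, hy] at hs
      rcases j with _ | j
      · simp [downRes] at hs
      · rw [downRes_both _ _ _ _ _ (by omega)] at hs
        obtain rfl := Option.some.inj hs
        exact ⟨fun h => Lf_child D b0 t j a.1 x a.2 (by omega) hx h,
          fun h => Lf_child D b0 t j b.1 y b.2 (by omega) hy h⟩
    · have hboth' : chl D b0 j a = none ∨ chl D b0 j b = none := by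
        by_contra hcon; push Not at hcon; exact hboth hcon
      rw [downRes_not _ _ _ _ _ hboth'] at hs
      obtain rfl := Option.some.inj hs
      exact ⟨fun h => Lf_bounce D b0 t j a h, fun h => Lf_bounce D b0 t j b h⟩
  | true =>
    have hjt : j < t := by
      rcases lt_or_eq_of_le hj with h | h
      · exact h
      · exact absurd ⟨h, rfl⟩ hE
    by_cases hD : D (j + 1) a.1 = D (j + 1) b.1
    · simp [wstep, hD] at hs
    · rw [wstep_true _ _ _ _ _ hD] at hs
      by_cases hboth : sib D j a = none ∧ sib D j b = none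
      · rw [hboth.1, hboth.2] at hs
        obtain rfl := Option.some.inj hs
        exact ⟨fun h => Lf_up D b0 t j a hjt hboth.1 h, fun h => Lf_up D b0 t j b hjt hboth.2 h⟩
      · have hboth' : sib D j a ≠ none ∨ sib D j b ≠ none := by
          by_contra hcon; push Not at hcon; exact hboth hcon
        rw [upRes_not _ _ _ _ _ _ hboth'] at hs
        obtain rfl := Option.some.inj hs
        exact ⟨fun h => Lf_turn D b0 t j a hjt h, fun h => Lf_turn D b0 t j b hjt h⟩

/-- The joint walk started at two distinct siblings `pa`, `pb` on level `t` comes back to them,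
having toured completely the subtree of at least one of them, and never that of the node on the
main path. -/
theorem walk_exit (t : ℕ) (pa pb : B) (hne : pa ≠ pb) :
    ∃ σa σb : Bool, ¬ (σa = false ∧ σb = false) ∧ (pa = mainP D b0 t → σa = false) ∧
      (pb = mainP D b0 t → σb = false) ∧
      ReflTransGen (fun c c' => wstep D b0 c = some c' ∧ c ∈ alive D t pa pb ∧ c ∉ exits t ∧
        c' ∈ alive D t pa pb)
        (t, (pa, false), (pb, false), false) (t, (pa, σa), (pb, σb), true) := by
  obtain ⟨e, heE, heX, hene, hrtg⟩ := reversible_orbit (wstep D b0) rev (alive D t pa pb)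
    (alive_finite D t pa pb) (exits t) (fun c => by simp [rev]) (fun c hcon => by
      have := congrArg (fun c => c.2.2.2) hcon
      simp [rev] at this) (fun c hc hE => wstep_reversible D b0 t pa pb hne c hc hE)
    (t, (pa, false), (pb, false), false)
    ⟨le_rfl, by simp [run], by simp [run]⟩ ⟨rfl, rfl⟩
  obtain ⟨j, ⟨x, σa⟩, ⟨y, σb⟩, h⟩ := e
  obtain ⟨h1, h2⟩ := heE
  obtain ⟨-, hx, hy⟩ := heX
  simp only at h1 h2 hx hy
  subst h1 h2
  simp only [Nat.sub_self, run] at hx hy
  subst hx hy
  refine ⟨σa, σb, ?_, ?_, ?_, hrtg⟩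
  · rintro ⟨rfl, rfl⟩
    exact hene rfl
  · intro hp
    have hinv : Lf D b0 j j (x, σa) := by
      have : ∀ c, ReflTransGen (fun c c' => wstep D b0 c = some c' ∧ c ∈ alive D j x y ∧
          c ∉ exits j ∧ c' ∈ alive D j x y) (j, (x, false), (y, false), false) c →
          Lf D b0 j c.1 c.2.1 := by
        intro c hc
        induction hc with
        | refl => left; exact ⟨hp, rfl⟩
        | tail _ hs ih => exact (Lf_wstep D b0 j x y _ _ hs.2.1 hs.2.2.1 hs.1).1 ih
      exact this _ hrtg
    rcases hinv with ⟨-, h⟩ | h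
    · exact h
    · simp [LO] at h
  · intro hp
    have hinv : Lf D b0 j j (y, σb) := by
      have : ∀ c, ReflTransGen (fun c c' => wstep D b0 c = some c' ∧ c ∈ alive D j x y ∧
          c ∉ exits j ∧ c' ∈ alive D j x y) (j, (x, false), (y, false), false) c →
          Lf D b0 j c.1 c.2.2.1 := by
        intro c hc
        induction hc with
        | refl => left; exact ⟨hp, rfl⟩
        | tail _ hs ih => exact (Lf_wstep D b0 j x y _ _ hs.2.1 hs.2.2.1 hs.1).2 ih
      exact this _ hrtg
    rcases hinv with ⟨-, h⟩ | h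
    · exact h
    · simp [LO] at h

end Walk

end Pool.Agent.H617R2
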