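import Mathlib
import Pool.Agent.H617R2.Walk
import Pool.Agent.H617R2.Machines

set_option autoImplicit false
set_option linter.unusedSectionVars false
set_option linter.style.haveILetI false

namespace Pool.Agent.H617R2

open Relation

/-- states of the two-way automaton simulating a bimachine -/
inductive St (B G : Type)
  | fwd (b : B)
  | main (b : B) (g : G)
  | walk (a b : B × Bool) (h : Bool) (g : G)
  | acc

section
variable {A B G : Type} [LinearOrder B] [Finite B]
variable (δ : B → A → B) (b0 : B) (γ : A → G → G) (g0 : G) (C : B → G → Prop)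

/-- compare the candidate `c` with the next challenger after `y` -/
noncomputable def challenge (c y : B) (a : A) (g : G) : Option (St B G × Bool) :=
  match nxt true y (fun p => δ p a = δ c a) with
  | none => some (St.main c g, false)
  | some d => some (St.walk (c, false) (d, false) false g, false)

noncomputable def downMove (a b : B × Bool) (g : G) : Option B → Option B → Bool →
    Option (St B G × Bool)
  | some x, some y, z => if z then none else some (St.walk (x, a.2) (y, b.2) false g, false)
  | ca, cb, _ => some (St.walk (bounce a ca) (bounce b cb) true g, true)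

noncomputable def upMove (a b : B × Bool) (g : G) (l : A) : Option B → Option B →
    Option (St B G × Bool)
  | none, none => some (St.walk (δ a.1 l, a.2) (δ b.1 l, b.2) true g, true)
  | sa, sb => some (St.walk (turn a sa) (turn b sb) false g, false)

open Classical in
/-- transition function of the simulating automaton -/
noncomputable def bmove : St B G → Cell A → Option (St B G × Bool)
  | .fwd b, .lend => some (.fwd b, true)
  | .fwd b, .letter a => some (.fwd (δ b a), true)
  | .fwd b, .rend => some (.main b g0, false)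
  | .main _ _, .rend => none
  | .main b g, .lend => if C b g then some (.acc, true) else none
  | .main b g, .letter a => if C b g then some (.acc, true) else
      match ext false (fun p => δ p a = b) with
      | none => none
      | some c => challenge δ c c a (γ a g)
  | .walk a b false g, .lend =>
      downMove a b g (if a.1 = b0 then some b0 else none) (if b.1 = b0 then some b0 else none) true
  | .walk a b false g, .letter l =>
      downMove a b g (ext a.2 (fun p => δ p l = a.1)) (ext b.2 (fun p => δ p l = b.1)) false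
  | .walk _ _ false _, .rend => none
  | .walk a b true g, .letter l =>
      if δ a.1 l = δ b.1 l then challenge δ (if a.2 then b.1 else a.1) b.1 l g
      else upMove δ a b g l (nxt a.2 a.1 (fun p => δ p l = δ a.1 l))
        (nxt b.2 b.1 (fun p => δ p l = δ b.1 l))
  | .walk _ _ true _, .lend => none
  | .walk _ _ true _, .rend => none
  | .acc, _ => some (.acc, true)

/-- the simulating automaton -/
noncomputable def bimach : TwoDFA A (St B G) where
  start := .fwd b0
  final := {.acc}
  move := bmove δ b0 γ g0 C

/-- the maps on prefix states given by the letters of `w` -/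
def Dw (w : List A) (j : ℕ) (p : B) : B :=
  match w[j - 1]? with
  | some a => δ p a
  | none => p

lemma cellOf_zero (w : List A) : cellOf w 0 = Cell.lend := rfl

lemma cellOf_letter (w : List A) (j : ℕ) (a : A) (h1 : 1 ≤ j) (h : w[j - 1]? = some a) :
    cellOf w j = Cell.letter a := by
  unfold cellOf
  rw [if_neg (by omega), h]

lemma cellOf_rend (w : List A) : cellOf w (w.length + 1) = Cell.rend := by
  unfold cellOf
  rw [if_neg (by omega)]
  simp

lemma Dw_eq (w : List A) (j : ℕ) (a : A) (h : w[j - 1]? = some a) : Dw δ w j = fun p => δ p a := by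
  funext p
  unfold Dw
  rw [h]

/-- head position belonging to a configuration of the abstract walk -/
def enc (g : G) (c : ℕ × (B × Bool) × (B × Bool) × Bool) : St B G × ℕ :=
  (St.walk c.2.1 c.2.2.1 c.2.2.2 g, if c.2.2.2 then c.1 + 1 else c.1)

lemma walk_step (w : List A) (t : ℕ) (ht : t < w.length) (g : G)
    (c c' : ℕ × (B × Bool) × (B × Bool) × Bool) (hc : c.1 ≤ t) (hE : c ∉ exits t)
    (hs : wstep (Dw δ w) b0 c = some c') :
    (bimach δ b0 γ g0 C).Step w (enc g c) (enc g c') := by
  classical
  obtain ⟨j, a, b, h⟩ := c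
  simp only at hc
  cases h with
  | false =>
    rw [wstep_false] at hs
    rcases j with _ | j
    · -- on the left endmarker
      rw [chl_zero, chl_zero] at hs
      refine ⟨by simp [enc], ?_⟩
      simp only [enc, cellOf_zero, bimach, bmove, Bool.false_eq_true, if_false]
      by_cases hboth : a.1 = b0 ∧ b.1 = b0
      · rw [if_pos hboth.1, if_pos hboth.2] at hs
        simp [downRes] at hs
      · left
        have h' : (if a.1 = b0 then some b0 else none) = none ∨
            (if b.1 = b0 then some b0 else none) = none := by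
          by_cases h1 : a.1 = b0
          · right
            rw [if_neg (fun h2 => hboth ⟨h1, h2⟩)]
          · left
            rw [if_neg h1]
        rw [downRes_not _ _ _ _ _ h'] at hs
        obtain rfl := Option.some.inj hs
        refine ⟨?_, by simp⟩
        rcases h' with h' | h' <;> rw [h']
        · simp only [downMove]
        · rcases (if a.1 = b0 then some b0 else none) with _ | x <;> simp only [downMove]
    · obtain ⟨l, hl⟩ : ∃ l, w[j]? = some l := by
        refine ⟨w[j]'(by omega), ?_⟩
        simp
      have hcell : cellOf w (j + 1) = Cell.letter l := cellOf_letter w (j + 1) l (by omega) hl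
      rw [chl_succ, chl_succ, Dw_eq δ w (j + 1) l hl] at hs
      refine ⟨by simp [enc]; omega, ?_⟩
      simp only [enc, hcell, bimach, bmove, Bool.false_eq_true, if_false]
      generalize ext a.2 (fun p => δ p l = a.1) = ca at hs ⊢
      generalize ext b.2 (fun p => δ p l = b.1) = cb at hs ⊢
      by_cases hboth : ca ≠ none ∧ cb ≠ none
      · obtain ⟨x, rfl⟩ := Option.ne_none_iff_exists'.1 hboth.1
        obtain ⟨y, rfl⟩ := Option.ne_none_iff_exists'.1 hboth.2
        rw [downRes_both _ _ _ _ _ (by omega)] at hs
        obtain rfl := Option.some.inj hs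
        right
        simp [downMove]
      · have hboth' : ca = none ∨ cb = none := by
          by_contra hcon; push Not at hcon; exact hboth hcon
        rw [downRes_not _ _ _ _ _ hboth'] at hs
        obtain rfl := Option.some.inj hs
        left
        refine ⟨?_, by simp⟩
        rcases hboth' with rfl | rfl
        · simp only [downMove]
        · rcases ca with _ | x <;> simp only [downMove]
  | true =>
    have hjt : j < t := by
      rcases lt_or_eq_of_le hc with h | h
      · exact h
      · exact absurd ⟨h, rfl⟩ hE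
    obtain ⟨l, hl⟩ : ∃ l, w[j]? = some l := by
      refine ⟨w[j]'(by omega), ?_⟩
      simp
    have hcell : cellOf w (j + 1) = Cell.letter l := cellOf_letter w (j + 1) l (by omega) hl
    by_cases hD : Dw δ w (j + 1) a.1 = Dw δ w (j + 1) b.1
    · simp [wstep, hD] at hs
    · rw [wstep_true _ _ _ _ _ hD] at hs
      unfold sib at hs
      rw [Dw_eq δ w (j + 1) l hl] at hs hD
      refine ⟨by simp [enc]; omega, ?_⟩
      simp only [enc, hcell, bimach, bmove, if_true]
      rw [if_neg hD]
      generalize hsa : nxt a.2 a.1 (fun p => δ p l = δ a.1 l) = sa at hs ⊢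
      generalize hsb : nxt b.2 b.1 (fun p => δ p l = δ b.1 l) = sb at hs ⊢
      by_cases hboth : sa = none ∧ sb = none
      · obtain ⟨rfl, rfl⟩ := hboth
        simp only [upRes, Dw_eq δ w (j + 1) l hl] at hs
        obtain rfl := Option.some.inj hs
        left
        simp [upMove]
      · have hboth' : sa ≠ none ∨ sb ≠ none := by
          by_contra hcon; push Not at hcon; exact hboth hcon
        rw [upRes_not _ _ _ _ _ _ hboth'] at hs
        obtain rfl := Option.some.inj hs
        right
        refine ⟨?_, by simp⟩
        rcases sa with _ | x <;> rcases sb with _ | y <;> simp_all [upMove]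

/-- prefix states -/
lemma mainP_eq (w : List A) (j : ℕ) (hj : j ≤ w.length) :
    mainP (Dw δ w) b0 j = (w.take j).foldl δ b0 := by
  induction j with
  | zero => rfl
  | succ j ih =>
    have hl : w[j]? = some (w[j]'(by omega)) := by simp
    rw [List.take_succ_eq_append_getElem (by omega), List.foldl_append]
    show Dw δ w (j + 1) (mainP (Dw δ w) b0 j) = _
    rw [Dw_eq δ w (j + 1) _ hl, ih (by omega)]
    rfl

lemma challenge_correct (w : List A) (t : ℕ) (ht : t < w.length) (l : A) (hl : w[t]? = some l)
    (g : G) : ∀ (y c : B), c ≤ y → δ c l = mainP (Dw δ w) b0 (t + 1) →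
      (mainP (Dw δ w) b0 t = c ∨ y < mainP (Dw δ w) b0 t) →
      ∃ s, challenge δ c y l g = some (s, false) ∧
        ReflTransGen ((bimach δ b0 γ g0 C).Step w) (s, t)
          (St.main (mainP (Dw δ w) b0 t) g, t) := by
  classical
  intro y
  have hP : δ (mainP (Dw δ w) b0 t) l = mainP (Dw δ w) b0 (t + 1) := by
    show _ = Dw δ w (t + 1) (mainP (Dw δ w) b0 t)
    rw [Dw_eq δ w (t + 1) l hl]
  induction y using WellFoundedGT.induction with
  | ind y ih =>
    intro c hcy hc hmain
    unfold challenge
    rcases hn : nxt true y (fun p => δ p l = δ c l) with _ | d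
    · refine ⟨_, rfl, ?_⟩
      rcases hmain with h | h
      · rw [h]
      · exfalso
        refine ext_eq_none hn (mainP (Dw δ w) b0 t) ⟨?_, ?_⟩
        · simp only; rw [hP, hc]
        · simpa [Beyond] using h
    · obtain ⟨⟨hd1, hd2⟩, hd3⟩ := ext_spec hn
      have hyd : y < d := by simpa [Beyond] using hd2
      have hcd : c ≠ d := ne_of_lt (lt_of_le_of_lt hcy hyd)
      obtain ⟨σa, σb, h1, h2, h3, hrtg⟩ := walk_exit (Dw δ w) b0 t c d hcd
      -- the next comparison
      obtain ⟨s', hs', hr'⟩ := ih d hyd (if σa then d else c)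
        (by cases σa <;> simp [(lt_of_le_of_lt hcy hyd).le])
        (by cases σa <;> simp [hd1, hc])
        (by
          rcases hmain with h | h
          · left
            rw [h2 h.symm]; simpa using h
          · rcases lt_trichotomy d (mainP (Dw δ w) b0 t) with h4 | h4 | h4
            · right; exact h4
            · left
              have := h3 h4
              have hσ : σa = true := by
                cases σa
                · exact absurd ⟨rfl, this⟩ h1
                · rfl
              rw [hσ]; simp [h4]
            · exfalso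
              exact hd3 (mainP (Dw δ w) b0 t) ⟨by simp only; rw [hP, hc], by simpa [Beyond] using h⟩
                (by simpa [Beyond] using h4))
      refine ⟨_, rfl, ?_⟩
      have hwalk : ReflTransGen ((bimach δ b0 γ g0 C).Step w)
          (enc g (t, (c, false), (d, false), false)) (enc g (t, (c, σa), (d, σb), true)) := by
        refine ReflTransGen.lift (enc g) ?_ _ _ hrtg
        rintro x x' ⟨hx1, hx2, hx3, -⟩
        exact walk_step δ b0 γ g0 C w t ht g x x' hx2.1 hx3 hx1
      refine ReflTransGen.trans (ReflTransGen.tail hwalk ?_) hr'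
      refine ⟨by simp [enc]; omega, ?_⟩
      right
      have hcell : cellOf w (t + 1) = Cell.letter l := cellOf_letter w (t + 1) l (by omega) hl
      simp only [enc, if_true, hcell, bimach, bmove]
      refine ⟨?_, trivial⟩
      rw [if_pos hd1.symm, hs']

lemma main_step (w : List A) (t : ℕ) (ht : t < w.length) (l : A) (hl : w[t]? = some l)
    (g : G) (hC : ¬ C (mainP (Dw δ w) b0 (t + 1)) g) :
    ReflTransGen ((bimach δ b0 γ g0 C).Step w) (St.main (mainP (Dw δ w) b0 (t + 1)) g, t + 1)
      (St.main (mainP (Dw δ w) b0 t) (γ l g), t) := by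
  classical
  have hP : δ (mainP (Dw δ w) b0 t) l = mainP (Dw δ w) b0 (t + 1) := by
    show _ = Dw δ w (t + 1) (mainP (Dw δ w) b0 t)
    rw [Dw_eq δ w (t + 1) l hl]
  have hcell : cellOf w (t + 1) = Cell.letter l := cellOf_letter w (t + 1) l (by omega) hl
  rcases he : ext false (fun p => δ p l = mainP (Dw δ w) b0 (t + 1)) with _ | c
  · exact absurd hP (ext_eq_none he _)
  · obtain ⟨hc1, hc2⟩ := ext_spec he
    obtain ⟨s, hs, hr⟩ := challenge_correct δ b0 γ g0 C w t ht l hl (γ l g) c c le_rfl hc1 (by
      rcases lt_trichotomy c (mainP (Dw δ w) b0 t) with h | h | h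
      · right; exact h
      · left; exact h.symm
      · exact absurd (by simpa [Beyond] using h) (hc2 _ hP))
    refine ReflTransGen.head ?_ hr
    refine ⟨by simp; omega, ?_⟩
    right
    simp only [hcell, bimach, bmove]
    rw [if_neg hC, he]
    exact ⟨hs, trivial⟩

/-- suffix states -/
def sufS (w : List A) (j : ℕ) : G := (w.drop j).foldr γ g0

lemma sufS_step (w : List A) (t : ℕ) (l : A) (hl : w[t]? = some l) :
    sufS γ g0 w t = γ l (sufS γ g0 w (t + 1)) := by
  unfold sufS
  have ht : t < w.length := by
    by_contra hcon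
    rw [List.getElem?_eq_none (by omega)] at hl
    exact absurd hl (by simp)
  have : w[t] = l := by
    rw [List.getElem?_eq_getElem ht] at hl
    exact Option.some.inj hl
  rw [List.drop_eq_getElem_cons ht, this]
  rfl

lemma acc_run (w : List A) (i : ℕ) (hi : i ≤ w.length + 2) :
    ReflTransGen ((bimach δ b0 γ g0 C).Step w) (St.acc, i) (St.acc, w.length + 2) := by
  obtain ⟨k, hk⟩ : ∃ k, i + k = w.length + 2 := ⟨w.length + 2 - i, by omega⟩
  induction k generalizing i with
  | zero =>
    have : i = w.length + 2 := by omega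
    rw [this]
  | succ k ih =>
    refine ReflTransGen.head ?_ (ih (i + 1) (by omega) (by omega))
    refine ⟨by simp only; omega, Or.inl ⟨?_, rfl⟩⟩
    simp only [bimach]
    cases cellOf w i <;> rfl

lemma fwd_run (w : List A) (j : ℕ) (hj : j ≤ w.length) :
    ReflTransGen ((bimach δ b0 γ g0 C).Step w) (St.fwd b0, 0)
      (St.fwd (mainP (Dw δ w) b0 j), j + 1) := by
  induction j with
  | zero =>
    refine ReflTransGen.single ⟨by simp, Or.inl ⟨?_, rfl⟩⟩
    simp only [bimach, cellOf_zero, bmove, mainP]
  | succ j ih =>
    refine ReflTransGen.tail (ih (by omega)) ⟨by simp only; omega, Or.inl ⟨?_, rfl⟩⟩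
    have hl : w[j]? = some (w[j]'(by omega)) := by simp
    simp only [bimach]
    rw [cellOf_letter w (j + 1) _ (by omega) hl]
    simp only [bmove]
    show _ = some (St.fwd (Dw δ w (j + 1) (mainP (Dw δ w) b0 j)), true)
    rw [Dw_eq δ w (j + 1) _ hl]

lemma step_det {A Q : Type} (D : TwoDFA A Q) (w : List A) : Relator.RightUnique (D.Step w) := by
  rintro ⟨q, i⟩ ⟨q1, i1⟩ ⟨q2, i2⟩ ⟨-, h1⟩ ⟨-, h2⟩
  simp only at h1 h2
  rcases h1 with ⟨h1, h1'⟩ | ⟨h1, h1'⟩ <;> rcases h2 with ⟨h2, h2'⟩ | ⟨h2, h2'⟩ <;>
    rw [h1] at h2 <;> simp at h2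
  · obtain rfl := h2
    have : i1 = i2 := by omega
    rw [this]
  · obtain rfl := h2
    have : i1 = i2 := by omega
    rw [this]

lemma main_accept (w : List A) (i : ℕ) (hi : i ≤ w.length)
    (hC : ∃ j ≤ i, C (mainP (Dw δ w) b0 j) (sufS γ g0 w j)) :
    ReflTransGen ((bimach δ b0 γ g0 C).Step w) (St.main (mainP (Dw δ w) b0 i) (sufS γ g0 w i), i)
      (St.acc, w.length + 2) := by
  classical
  induction i with
  | zero =>
    obtain ⟨j, hj, hC⟩ := hC
    obtain rfl : j = 0 := by omega
    refine ReflTransGen.head ⟨by simp, Or.inl ⟨?_, rfl⟩⟩ (acc_run δ b0 γ g0 C w 1 (by omega))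
    simp only [bimach, cellOf_zero, bmove]
    rw [if_pos hC]
  | succ i ih =>
    have hl : w[i]? = some (w[i]'(by omega)) := by simp
    by_cases h : C (mainP (Dw δ w) b0 (i + 1)) (sufS γ g0 w (i + 1))
    · refine ReflTransGen.head ⟨by simp only; omega, Or.inl ⟨?_, rfl⟩⟩
        (acc_run δ b0 γ g0 C w (i + 1 + 1) (by omega))
      simp only [bimach]
      rw [cellOf_letter w (i + 1) _ (by omega) hl]
      simp only [bmove]
      rw [if_pos h]
    · refine ReflTransGen.trans (main_step δ b0 γ g0 C w i (by omega) _ hl _ h) ?_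
      rw [← sufS_step γ g0 w i _ hl]
      refine ih (by omega) ?_
      obtain ⟨j, hj, hC⟩ := hC
      rcases Nat.lt_or_ge j (i + 1) with h' | h'
      · exact ⟨j, by omega, hC⟩
      · obtain rfl : j = i + 1 := by omega
        exact absurd hC h

lemma main_reject (w : List A) (i : ℕ) (hi : i ≤ w.length)
    (hC : ∀ j ≤ i, ¬ C (mainP (Dw δ w) b0 j) (sufS γ g0 w j)) :
    ReflTransGen ((bimach δ b0 γ g0 C).Step w) (St.main (mainP (Dw δ w) b0 i) (sufS γ g0 w i), i)
      (St.main (mainP (Dw δ w) b0 0) (sufS γ g0 w 0), 0) := by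
  classical
  induction i with
  | zero => exact ReflTransGen.refl
  | succ i ih =>
    have hl : w[i]? = some (w[i]'(by omega)) := by simp
    refine ReflTransGen.trans (main_step δ b0 γ g0 C w i (by omega) _ hl _ (hC _ le_rfl)) ?_
    rw [← sufS_step γ g0 w i _ hl]
    exact ih (by omega) (fun j hj => hC j (by omega))

/-- The language of a bimachine with existential acceptance. -/
theorem bimach_accepts (w : List A) :
    (bimach δ b0 γ g0 C).Accepts w ↔
      ∃ j ≤ w.length, C ((w.take j).foldl δ b0) ((w.drop j).foldr γ g0) := by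
  classical
  have hstart : ReflTransGen ((bimach δ b0 γ g0 C).Step w) (St.fwd b0, 0)
      (St.main (mainP (Dw δ w) b0 w.length) (sufS γ g0 w w.length), w.length) := by
    refine ReflTransGen.tail (fwd_run δ b0 γ g0 C w w.length le_rfl) ⟨by simp, Or.inr ⟨?_, rfl⟩⟩
    simp only [bimach, cellOf_rend, bmove]
    simp [sufS]
  have hiff : (∃ j ≤ w.length, C ((w.take j).foldl δ b0) ((w.drop j).foldr γ g0)) ↔
      ∃ j ≤ w.length, C (mainP (Dw δ w) b0 j) (sufS γ g0 w j) := by
    constructor
    · rintro ⟨j, hj, h⟩
      exact ⟨j, hj, by rw [mainP_eq δ b0 w j hj]; exact h⟩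
    · rintro ⟨j, hj, h⟩
      rw [mainP_eq δ b0 w j hj] at h
      exact ⟨j, hj, h⟩
  rw [hiff]
  constructor
  · rintro ⟨q, hq, hr⟩
    by_contra hcon
    push Not at hcon
    have h0 := ReflTransGen.trans hstart (main_reject δ b0 γ g0 C w w.length le_rfl
      (fun j hj => hcon j hj))
    have hq' : q = St.acc := hq
    subst hq'
    rcases ReflTransGen.total_of_right_unique (step_det _ _) h0 hr with h | h
    · rcases ReflTransGen.cases_head h with h | ⟨c, hc, -⟩
      · simp at h
      · obtain ⟨-, h1⟩ := hc
        simp only [bimach, cellOf_zero, bmove] at h1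
        rw [if_neg (hcon 0 (by omega))] at h1
        simp at h1
    · rcases ReflTransGen.cases_head h with h | ⟨c, hc, -⟩
      · simp at h
      · have := hc.1
        simp at this
  · intro h
    exact ⟨St.acc, rfl, ReflTransGen.trans hstart (main_accept δ b0 γ g0 C w w.length le_rfl h)⟩

end

/-! ### Counting states -/

section Card
variable {B G : Type}

def St.toSum : St B G → B ⊕ (B × G) ⊕ ((B × Bool) × (B × Bool) × Bool × G) ⊕ Unit
  | .fwd b => .inl b
  | .main b g => .inr (.inl (b, g))
  | .walk a b h g => .inr (.inr (.inl (a, b, h, g)))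
  | .acc => .inr (.inr (.inr ()))

lemma St.toSum_injective : Function.Injective (St.toSum (B := B) (G := G)) := by
  intro x y h
  cases x <;> cases y <;> simp_all [St.toSum]

noncomputable instance [Fintype B] [Fintype G] : Fintype (St B G) :=
  Fintype.ofInjective _ (St.toSum_injective (B := B) (G := G))

lemma St.card_le [Fintype B] [Fintype G] :
    Fintype.card (St B G) ≤ Fintype.card B + (Fintype.card B * Fintype.card G +
      (8 * Fintype.card B ^ 2 * Fintype.card G + 1)) := by
  refine (Fintype.card_le_of_injective _ (St.toSum_injective (B := B) (G := G))).trans ?_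
  simp only [Fintype.card_sum, Fintype.card_prod, Fintype.card_bool, Fintype.card_unit]
  apply le_of_eq
  ring

end Card

/-- Transport of a two-way automaton along an equivalence of state sets. -/
def TwoDFA.map {A Q Q' : Type} (e : Q ≃ Q') (D : TwoDFA A Q) : TwoDFA A Q' where
  start := e D.start
  final := e '' D.final
  move q s := (D.move (e.symm q) s).map (fun r => (e r.1, r.2))

lemma TwoDFA.map_step {A Q Q' : Type} (e : Q ≃ Q') (D : TwoDFA A Q) (w : List A) (c c' : Q × ℕ)
    (h : D.Step w c c') : (D.map e).Step w (e c.1, c.2) (e c'.1, c'.2) := by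
  obtain ⟨h1, h2⟩ := h
  refine ⟨h1, ?_⟩
  rcases h2 with ⟨h2, h3⟩ | ⟨h2, h3⟩
  · left; refine ⟨?_, h3⟩; simp [TwoDFA.map, h2]
  · right; refine ⟨?_, h3⟩; simp [TwoDFA.map, h2]

lemma TwoDFA.map_step' {A Q Q' : Type} (e : Q ≃ Q') (D : TwoDFA A Q) (w : List A) (c c' : Q' × ℕ)
    (h : (D.map e).Step w c c') : D.Step w (e.symm c.1, c.2) (e.symm c'.1, c'.2) := by
  obtain ⟨h1, h2⟩ := h
  refine ⟨h1, ?_⟩
  rcases h2 with ⟨h2, h3⟩ | ⟨h2, h3⟩
  · left
    refine ⟨?_, h3⟩
    simp only [TwoDFA.map, Option.map_eq_some_iff] at h2
    obtain ⟨⟨p, d⟩, hp, he⟩ := h2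
    simp only [Prod.mk.injEq] at he
    simp only [hp, ← he.1, he.2, Equiv.symm_apply_apply]
  · right
    refine ⟨?_, h3⟩
    simp only [TwoDFA.map, Option.map_eq_some_iff] at h2
    obtain ⟨⟨p, d⟩, hp, he⟩ := h2
    simp only [Prod.mk.injEq] at he
    simp only [hp, ← he.1, he.2, Equiv.symm_apply_apply]

lemma TwoDFA.map_accepts {A Q Q' : Type} (e : Q ≃ Q') (D : TwoDFA A Q) (w : List A) :
    (D.map e).Accepts w ↔ D.Accepts w := by
  constructor
  · rintro ⟨q, ⟨p, hp, rfl⟩, hr⟩
    refine ⟨p, hp, ?_⟩
    have := ReflTransGen.lift (fun c : Q' × ℕ => (e.symm c.1, c.2))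
      (fun c c' h => TwoDFA.map_step' e D w c c' h) _ _ hr
    simpa [TwoDFA.map, Function.onFun] using this
  · rintro ⟨q, hq, hr⟩
    refine ⟨e q, ⟨q, hq, rfl⟩, ?_⟩
    exact ReflTransGen.lift (fun c : Q × ℕ => (e c.1, c.2))
      (fun c c' h => TwoDFA.map_step e D w c c' h) _ _ hr

end Pool.Agent.H617R2
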