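import Mathlib
import Pool.Agent.H617R2.Beh

set_option autoImplicit false
set_option linter.unusedSectionVars false
set_option linter.style.haveILetI false

namespace Pool.Agent.H617R2

open Relation

section Flag
variable {A Q : Type} (M : MLA A Q)

/-- The two-way relation simulating `M` on a tape on which the cell to be marked is flagged. States
carry the information whether the marking has been done. -/
def hat : Q × Bool → Cell (A × Bool) → Set ((Q × Bool) × Bool)
  | (q, md), .lend => {r | (r.1.1, false, r.2) ∈ M.move q .lend ∧ r.1.2 = md}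
  | (q, md), .rend => {r | (r.1.1, false, r.2) ∈ M.move q .rend ∧ r.1.2 = md}
  | (q, md), .letter (a, false) =>
      {r | (r.1.1, false, r.2) ∈ M.move q (.letter (a, false)) ∧ r.1.2 = md}
  | (q, false), .letter (a, true) =>
      {r | (r.1.1, true, r.2) ∈ M.move q (.letter (a, false)) ∧ r.1.2 = true}
  | (q, true), .letter (a, true) =>
      {r | (r.1.1, false, r.2) ∈ M.move q (.letter (a, true)) ∧ r.1.2 = true}

/-- the tape with input `w` and cell `j` flagged (none if `j = 0` or `j > |w|`) -/
def tp (w : List A) (j : ℕ) : List (Cell (A × Bool)) :=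
  Cell.lend :: (w.mapIdx (fun i a => Cell.letter (a, decide (i + 1 = j))) ++ [Cell.rend])

lemma tp_length (w : List A) (j : ℕ) : (tp w j).length = w.length + 2 := by
  simp [tp]

/-- the content of the flagged tape -/
def flagCell (w : List A) (j i : ℕ) : Cell (A × Bool) := markedCell w {j} i

lemma tp_get (w : List A) (j i : ℕ) (hi : i ≤ w.length + 1) :
    (tp w j)[i]? = some (markedCell w {j} i) := by
  unfold tp markedCell
  rcases i with _ | i
  · simp
  · simp only [List.getElem?_cons_succ, Nat.add_sub_cancel]
    rw [if_neg (by omega)]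
    rcases Nat.lt_or_ge i w.length with h | h
    · rw [List.getElem?_append_left (by simpa using h)]
      simp [List.getElem?_eq_getElem h]
    · have : i = w.length := by omega
      subst this
      rw [List.getElem?_append_right (by simp)]
      simp

lemma tp_get_none (w : List A) (j i : ℕ) (hi : w.length + 2 ≤ i) : (tp w j)[i]? = none := by
  rw [List.getElem?_eq_none]
  rw [tp_length]; exact hi

lemma markedCell_lend (w : List A) (F : Finset ℕ) : markedCell w F 0 = Cell.lend := rfl

lemma markedCell_rend (w : List A) (F : Finset ℕ) (i : ℕ) (h : w.length + 1 ≤ i) :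
    markedCell w F i = Cell.rend := by
  unfold markedCell
  rw [if_neg (by omega), List.getElem?_eq_none (by omega)]

lemma markedCell_letter (w : List A) (F : Finset ℕ) (i : ℕ) (h1 : 1 ≤ i) (h2 : i ≤ w.length) :
    markedCell w F i = Cell.letter (w[i - 1]'(by omega), decide (i ∈ F)) := by
  unfold markedCell
  rw [if_neg (by omega), List.getElem?_eq_getElem (by omega)]

/-- position cases -/
lemma pos_cases (w : List A) (i : ℕ) (hi : i ≤ w.length + 1) :
    i = 0 ∨ (1 ≤ i ∧ i ≤ w.length) ∨ i = w.length + 1 := by omega

/-- From the flagged tape to the marking automaton. -/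
lemma hat_to_MLA (w : List A) (j : ℕ) (c : (Q × Bool) × ℕ)
    (h : ReflTransGen (Seg (hat M) (tp w j)) ((M.start, false), 1) c) :
    c.2 = 0 ∨ (c.1.2 = false ∧ ∃ seen : Finset ℕ, (1 ≤ j → j ≤ w.length → j ∉ seen) ∧
        ReflTransGen (M.Step w) M.init ⟨c.1.1, c.2 - 1, ∅, seen⟩) ∨
      (c.1.2 = true ∧ ∃ seen : Finset ℕ,
        ReflTransGen (M.Step w) M.init ⟨c.1.1, c.2 - 1, {j}, seen⟩) := by
  induction h with
  | refl => right; left; exact ⟨rfl, ∅, by simp, ReflTransGen.refl⟩
  | @tail c c' _ hs ih =>
    obtain ⟨⟨q, md⟩, P⟩ := c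
    obtain ⟨⟨q', md'⟩, P'⟩ := c'
    obtain ⟨s, d, hP, hget, hmv, hd⟩ := hs
    simp only at hP hget hmv hd ih ⊢
    by_cases hP0 : P' = 0
    · left; exact hP0
    right
    have hPw : P - 1 ≤ w.length + 1 := by
      by_contra hcon
      rw [tp_get_none w j _ (by omega)] at hget
      exact absurd hget (by simp)
    rw [tp_get w j _ hPw] at hget
    have hs := Option.some.inj hget
    rcases ih with ih | ⟨hmd, seen, hj, hr⟩ | ⟨hmd, seen, hr⟩
    · omega
    · subst hmd
      have hd' : if d = true then P' - 1 = P - 1 + 1 else P' - 1 + 1 = P - 1 := by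
        split_ifs at hd ⊢ <;> omega
      rcases pos_cases w (P - 1) hPw with h0 | h1 | h2
      · rw [h0, markedCell_lend] at hs
        subst hs
        obtain ⟨hm1, hm2⟩ := hmv
        simp only at hm1 hm2
        subst hm2
        left
        refine ⟨rfl, insert (P - 1) seen, fun h1 h2 => ?_, ReflTransGen.tail hr ⟨false, d, ?_, hPw,
          by simp, by simp, by simp, hd'⟩⟩
        · simp only [Finset.mem_insert, not_or]
          exact ⟨by omega, hj h1 h2⟩
        · simp only [h0, markedCell_lend]; exact hm1
      · rw [markedCell_letter w _ _ h1.1 h1.2] at hs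
        by_cases hflag : P - 1 = j
        · have : decide (P - 1 ∈ ({j} : Finset ℕ)) = true := by simp [hflag]
          rw [this] at hs
          subst hs
          obtain ⟨hm1, hm2⟩ := hmv
          simp only at hm1 hm2
          subst hm2
          right
          refine ⟨rfl, insert (P - 1) seen, ReflTransGen.tail hr ⟨true, d, ?_, hPw,
            fun _ => ⟨h1.1, h1.2, ?_⟩, by simp [hflag], by simp, hd'⟩⟩
          · simp only [markedCell_letter w _ _ h1.1 h1.2]
            simpa using hm1
          · simp only
            rw [hflag]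
            exact hj (by omega) (by omega)
        · have : decide (P - 1 ∈ ({j} : Finset ℕ)) = false := by simp [hflag]
          rw [this] at hs
          subst hs
          obtain ⟨hm1, hm2⟩ := hmv
          simp only at hm1 hm2
          subst hm2
          left
          refine ⟨rfl, insert (P - 1) seen, fun h1 h2 => ?_, ReflTransGen.tail hr ⟨false, d, ?_, hPw,
            by simp, by simp, by simp, hd'⟩⟩
          · simp only [Finset.mem_insert, not_or]
            exact ⟨fun h => hflag h.symm, hj h1 h2⟩
          · simp only [markedCell_letter w _ _ h1.1 h1.2]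
            simpa using hm1
      · rw [h2, markedCell_rend w _ _ (by omega)] at hs
        subst hs
        obtain ⟨hm1, hm2⟩ := hmv
        simp only at hm1 hm2
        subst hm2
        left
        refine ⟨rfl, insert (P - 1) seen, fun h1 h2 => ?_, ReflTransGen.tail hr ⟨false, d, ?_, hPw,
          by simp, by simp, by simp, hd'⟩⟩
        · simp only [Finset.mem_insert, not_or]
          exact ⟨by omega, hj h1 h2⟩
        · simp only [h2, markedCell_rend w _ _ (Nat.le_refl _)]; exact hm1
    · subst hmd
      have hd' : if d = true then P' - 1 = P - 1 + 1 else P' - 1 + 1 = P - 1 := by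
        split_ifs at hd ⊢ <;> omega
      right
      rcases pos_cases w (P - 1) hPw with h0 | h1 | h2
      · rw [h0, markedCell_lend] at hs
        subst hs
        obtain ⟨hm1, hm2⟩ := hmv
        simp only at hm1 hm2
        subst hm2
        refine ⟨rfl, insert (P - 1) seen, ReflTransGen.tail hr ⟨false, d, ?_, hPw,
          by simp, by simp, by simp, hd'⟩⟩
        simp only [h0, markedCell_lend]; exact hm1
      · rw [markedCell_letter w _ _ h1.1 h1.2] at hs
        by_cases hflag : P - 1 = j
        · have : decide (P - 1 ∈ ({j} : Finset ℕ)) = true := by simp [hflag]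
          rw [this] at hs
          subst hs
          obtain ⟨hm1, hm2⟩ := hmv
          simp only at hm1 hm2
          subst hm2
          refine ⟨rfl, insert (P - 1) seen, ReflTransGen.tail hr ⟨false, d, ?_, hPw,
            by simp, by simp, by simp, hd'⟩⟩
          simp only [markedCell_letter w _ _ h1.1 h1.2, this]
          exact hm1
        · have : decide (P - 1 ∈ ({j} : Finset ℕ)) = false := by simp [hflag]
          rw [this] at hs
          subst hs
          obtain ⟨hm1, hm2⟩ := hmv
          simp only at hm1 hm2
          subst hm2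
          refine ⟨rfl, insert (P - 1) seen, ReflTransGen.tail hr ⟨false, d, ?_, hPw,
            by simp, by simp, by simp, hd'⟩⟩
          simp only [markedCell_letter w _ _ h1.1 h1.2, this]
          exact hm1
      · rw [h2, markedCell_rend w _ _ (by omega)] at hs
        subst hs
        obtain ⟨hm1, hm2⟩ := hmv
        simp only at hm1 hm2
        subst hm2
        refine ⟨rfl, insert (P - 1) seen, ReflTransGen.tail hr ⟨false, d, ?_, hPw,
          by simp, by simp, by simp, hd'⟩⟩
        simp only [h2, markedCell_rend w _ _ (Nat.le_refl _)]; exact hm1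

lemma hat_mem_lend (q p : Q) (md d : Bool) (h : (p, false, d) ∈ M.move q .lend) :
    ((p, md), d) ∈ hat M (q, md) .lend := by
  cases md <;> exact ⟨h, rfl⟩

lemma hat_mem_rend (q p : Q) (md d : Bool) (h : (p, false, d) ∈ M.move q .rend) :
    ((p, md), d) ∈ hat M (q, md) .rend := by
  cases md <;> exact ⟨h, rfl⟩

lemma hat_mem_letter (q p : Q) (md d : Bool) (a : A)
    (h : (p, false, d) ∈ M.move q (.letter (a, false))) :
    ((p, md), d) ∈ hat M (q, md) (.letter (a, false)) := by
  cases md <;> exact ⟨h, rfl⟩

/-- a step without marking of the marking automaton on the flagged tape -/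
lemma hat_step (w : List A) (j : ℕ) (F : Finset ℕ) (q p : Q) (md : Bool) (i i' : ℕ) (d : Bool)
    (hi : i ≤ w.length + 1) (hmv : (p, false, d) ∈ M.move q (markedCell w F i))
    (hd : if d = true then i' = i + 1 else i' + 1 = i)
    (hF : (md = false ∧ F = ∅ ∧ (j = 0 ∨ j ≠ i)) ∨ (md = true ∧ F = {j})) :
    Seg (hat M) (tp w j) ((q, md), i + 1) ((p, md), i' + 1) := by
  refine ⟨markedCell w {j} i, d, by simp, ?_, ?_, by simp only; split_ifs at hd ⊢ <;> omega⟩
  · simp only [Nat.add_sub_cancel]
    exact tp_get w j i hi
  · rcases pos_cases w i hi with h0 | h1 | h2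
    · subst h0
      exact hat_mem_lend M q p md d hmv
    · rw [markedCell_letter w _ _ h1.1 h1.2] at hmv ⊢
      rcases hF with ⟨rfl, rfl, hj⟩ | ⟨rfl, rfl⟩
      · have hji : ¬ (i ∈ ({j} : Finset ℕ)) := by
          simp only [Finset.mem_singleton]
          rcases hj with rfl | hj
          · omega
          · exact fun h => hj h.symm
        simp only [hji, decide_false]
        refine hat_mem_letter M q p false d _ (by simpa using hmv)
      · by_cases hij : i ∈ ({j} : Finset ℕ)
        · simp only [hij, decide_true] at hmv ⊢
          exact ⟨hmv, rfl⟩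
        · simp only [hij, decide_false] at hmv ⊢
          exact hat_mem_letter M q p true d _ hmv
    · rw [markedCell_rend w _ _ (by omega)] at hmv ⊢
      exact hat_mem_rend M q p md d hmv

/-- From the marking automaton to the flagged tape. -/
lemma MLA_to_hat (hM : M.OnceMarking) (w : List A) (c : Config Q)
    (h : ReflTransGen (M.Step w) M.init c) :
    (c.marks = ∅ ∧ ∀ j, (j = 0 ∨ j ∉ c.seen) →
      ReflTransGen (Seg (hat M) (tp w j)) ((M.start, false), 1) ((c.state, false), c.pos + 1)) ∨
    (∃ j, 1 ≤ j ∧ j ≤ w.length ∧ j ∈ c.seen ∧ c.marks = {j} ∧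
      ReflTransGen (Seg (hat M) (tp w j)) ((M.start, false), 1) ((c.state, true), c.pos + 1)) := by
  induction h with
  | refl =>
    left
    exact ⟨rfl, fun j _ => ReflTransGen.refl⟩
  | @tail c c' hr hs ih =>
    have hcard := hM w c' (ReflTransGen.tail hr hs)
    obtain ⟨m, d, hmv, hpos, hmark, hmarks, hseen, hd⟩ := hs
    rcases ih with ⟨hm, hall⟩ | ⟨j, hj1, hj2, hj3, hm, hrj⟩
    · cases m with
      | false =>
        left
        refine ⟨by simpa [hm] using hmarks, fun j hj => ?_⟩
        rw [hseen] at hj
        have hj' : j = 0 ∨ j ∉ c.seen := by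
          rcases hj with h | h
          · left; exact h
          · right; intro h'; exact h (by simp [h'])
        refine ReflTransGen.tail (hall j hj') (hat_step M w j c.marks _ _ _ _ _ d hpos hmv hd ?_)
        left
        refine ⟨rfl, hm, ?_⟩
        rcases hj with h | h
        · left; exact h
        · right; rintro rfl; exact h (by simp)
      | true =>
        right
        obtain ⟨h1, h2, h3⟩ := hmark rfl
        refine ⟨c.pos, h1, h2, by rw [hseen]; simp, by simpa [hm] using hmarks, ?_⟩
        refine ReflTransGen.tail (hall c.pos (Or.inr h3)) ?_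
        refine ⟨markedCell w {c.pos} c.pos, d, by simp, ?_, ?_, by simp only; split_ifs at hd ⊢ <;> omega⟩
        · simp only [Nat.add_sub_cancel]
          exact tp_get w _ _ hpos
        · rw [hm, markedCell_letter w _ _ h1 h2] at hmv
          rw [markedCell_letter w _ _ h1 h2]
          simp only [Finset.mem_singleton, decide_true]
          simp only [Finset.notMem_empty, decide_false] at hmv
          exact ⟨hmv, rfl⟩
    · cases m with
      | false =>
        right
        refine ⟨j, hj1, hj2, by rw [hseen]; simp [hj3], by simpa [hm] using hmarks, ?_⟩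
        exact ReflTransGen.tail hrj (hat_step M w j c.marks _ _ _ _ _ d hpos hmv hd (Or.inr ⟨rfl, hm⟩))
      | true =>
        exfalso
        obtain ⟨h1, h2, h3⟩ := hmark rfl
        simp only [if_true, hm] at hmarks
        rw [hmarks] at hcard
        have hne : c.pos ≠ j := by rintro rfl; exact h3 hj3
        rw [Finset.card_insert_of_notMem (by simpa using hne)] at hcard
        simp at hcard

/-- `w` is accepted without marking, or with the marking of the cell `j` -/
def accAt (w : List A) (j : ℕ) : Prop :=
  (∃ q ∈ M.final, beh (hat M) (tp w 0) ((M.start, false), false) ((q, false), true)) ∨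
    (∃ q ∈ M.final, beh (hat M) (tp w j) ((M.start, false), false) ((q, true), true))

theorem accepts_iff (hM : M.OnceMarking) (w : List A) :
    M.Accepts w ↔ ∃ j ≤ w.length, accAt M w j := by
  have hbeh : ∀ j (k : Q × Bool), beh (hat M) (tp w j) ((M.start, false), false) (k, true) ↔
      ReflTransGen (Seg (hat M) (tp w j)) ((M.start, false), 1) (k, w.length + 3) := by
    intro j k
    simp [beh, inPos, outPos, tp_length]
  constructor
  · rintro ⟨c, hc1, hc2, hr⟩
    rcases MLA_to_hat M hM w c hr with ⟨-, h⟩ | ⟨j, hj1, hj2, -, -, h⟩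
    · refine ⟨0, by omega, Or.inl ⟨c.state, hc1, ?_⟩⟩
      rw [hbeh]
      have := h 0 (Or.inl rfl)
      rwa [hc2] at this
    · refine ⟨j, hj2, Or.inr ⟨c.state, hc1, ?_⟩⟩
      rw [hbeh]
      rwa [hc2] at h
  · rintro ⟨j, -, ⟨q, hq, h⟩ | ⟨q, hq, h⟩⟩
    · rw [hbeh] at h
      rcases hat_to_MLA M w 0 _ h with h | ⟨-, seen, -, h⟩ | ⟨h, -⟩
      · simp at h
      · exact ⟨_, hq, rfl, h⟩
      · simp at h
    · rw [hbeh] at h
      rcases hat_to_MLA M w j _ h with h | ⟨h, -⟩ | ⟨-, seen, h⟩
      · simp at h
      · simp at h
      · exact ⟨_, hq, rfl, h⟩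

end Flag

end Pool.Agent.H617R2
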