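import Mathlib
import Pool.Agent.H617R2.Flag
import Pool.Agent.H617R2.Bimachine

set_option autoImplicit false
set_option linter.unusedSectionVars false
set_option linter.style.haveILetI false

namespace Pool.Agent.H617R2

open Relation

lemma exists_fold {A B : Type} (β : List A → B)
    (h : ∀ u u' a, β u = β u' → β (u ++ [a]) = β (u' ++ [a])) :
    ∃ δ : B → A → B, ∀ u, u.foldl δ (β []) = β u := by
  classical
  refine ⟨fun b a => if hb : ∃ u, β u = b then β (hb.choose ++ [a]) else b, fun u => ?_⟩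
  induction u using List.reverseRecOn with
  | nil => rfl
  | append_singleton u a ih =>
    rw [List.foldl_append, ih]
    simp only [List.foldl_cons, List.foldl_nil]
    have hb : ∃ u', β u' = β u := ⟨u, rfl⟩
    rw [dif_pos hb]
    exact h _ _ a hb.choose_spec

lemma exists_foldr {A G : Type} (γ : List A → G)
    (h : ∀ v v' a, γ v = γ v' → γ (a :: v) = γ (a :: v')) :
    ∃ σ : A → G → G, ∀ v, v.foldr σ (γ []) = γ v := by
  classical
  refine ⟨fun a g => if hg : ∃ v, γ v = g then γ (a :: hg.choose) else g, fun v => ?_⟩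
  induction v with
  | nil => rfl
  | cons a v ih =>
    rw [List.foldr_cons, ih]
    have hg : ∃ v', γ v' = γ v := ⟨v, rfl⟩
    rw [dif_pos hg]
    exact h _ _ a hg.choose_spec

section Upper
variable {A Q : Type} (M : MLA A Q)

/-- prefix tape with cell `j` flagged -/
def preX (u : List A) (j : ℕ) : List (Cell (A × Bool)) :=
  Cell.lend :: u.mapIdx (fun i a => Cell.letter (a, decide (i + 1 = j)))

/-- suffix tape -/
def sufX (v : List A) : List (Cell (A × Bool)) :=
  v.map (fun a => Cell.letter (a, false)) ++ [Cell.rend]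

lemma mapIdx_eq_map_of {α β : Type} (f : ℕ → α → β) (g : α → β) :
    ∀ (l : List α), (∀ i a, i < l.length → f i a = g a) → l.mapIdx f = l.map g := by
  intro l hl
  apply List.ext_getElem
  · simp
  · intro i h1 h2
    simp only [List.getElem_mapIdx, List.getElem_map]
    exact hl i _ (by simpa using h1)

lemma tp_append (u v : List A) (j : ℕ) (hj : j ≤ u.length) :
    tp (u ++ v) j = preX u j ++ sufX v := by
  unfold tp preX sufX
  rw [List.mapIdx_append, mapIdx_eq_map_of (fun i a => Cell.letter (a, decide (i + u.length + 1 = j)))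
    (fun a => Cell.letter (a, false))]
  · simp
  · intro i a _
    have : ¬ (i + u.length + 1 = j) := by omega
    simp [this]

lemma preX_snoc_zero (u : List A) (a : A) :
    preX (u ++ [a]) 0 = preX u 0 ++ [Cell.letter (a, false)] := by
  unfold preX
  rw [List.mapIdx_append]
  simp

lemma preX_snoc_last (u : List A) (a : A) :
    preX (u ++ [a]) (u ++ [a]).length = preX u 0 ++ [Cell.letter (a, true)] := by
  unfold preX
  rw [List.mapIdx_append, mapIdx_eq_map_of (fun i a' => Cell.letter (a', decide (i + 1 = (u ++ [a]).length)))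
    (fun a => Cell.letter (a, false)), mapIdx_eq_map_of (fun i a' => Cell.letter (a', decide (i + 1 = 0)))
    (fun a => Cell.letter (a, false))]
  · simp
  · intro i a _
    simp
  · intro i a hi
    have : ¬ (i = u.length) := by omega
    simp [this]

/-- the information on prefixes -/
def betaM (u : List A) : ((Q × Bool) × Bool → (Q × Bool) × Bool → Prop) ×
    ((Q × Bool) × Bool → (Q × Bool) × Bool → Prop) :=
  (beh (hat M) (preX u 0), beh (hat M) (preX u u.length))

/-- the information on suffixes -/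
def gammaM (v : List A) : (Q × Bool) × Bool → (Q × Bool) × Bool → Prop :=
  beh (hat M) (sufX v)

lemma betaM_congr (u u' : List A) (a : A) (h : betaM M u = betaM M u') :
    betaM M (u ++ [a]) = betaM M (u' ++ [a]) := by
  have h1 : beh (hat M) (preX u 0) = beh (hat M) (preX u' 0) := congrArg Prod.fst h
  unfold betaM
  rw [preX_snoc_zero, preX_snoc_last, preX_snoc_zero, preX_snoc_last,
    beh_append_congr (hat M) h1 (rfl : beh (hat M) [Cell.letter (a, false)] = _),
    beh_append_congr (hat M) h1 (rfl : beh (hat M) [Cell.letter (a, true)] = _)]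

lemma gammaM_congr (v v' : List A) (a : A) (h : gammaM M v = gammaM M v') :
    gammaM M (a :: v) = gammaM M (a :: v') := by
  unfold gammaM at *
  have : ∀ v : List A, sufX (a :: v) = [Cell.letter (a, false)] ++ sufX v := fun v => by simp [sufX]
  rw [this, this]
  exact beh_append_congr (hat M) rfl h

lemma accAt_congr (u u' v v' : List A) (h1 : betaM M u = betaM M u') (h2 : gammaM M v = gammaM M v')
    (h : accAt M (u ++ v) u.length) : accAt M (u' ++ v') u'.length := by
  unfold accAt at *
  rw [tp_append _ _ _ (Nat.zero_le _), tp_append _ _ _ le_rfl] at *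
  rw [← beh_append_congr (hat M) (congrArg Prod.fst h1 : beh (hat M) (preX u 0) = _) h2,
    ← beh_append_congr (hat M) (congrArg Prod.snd h1 : beh (hat M) (preX u u.length) = _) h2]
  exact h

/-- the acceptance condition -/
def condM (b : ((Q × Bool) × Bool → (Q × Bool) × Bool → Prop) ×
    ((Q × Bool) × Bool → (Q × Bool) × Bool → Prop))
    (g : (Q × Bool) × Bool → (Q × Bool) × Bool → Prop) : Prop :=
  ∃ u v : List A, betaM M u = b ∧ gammaM M v = g ∧ accAt M (u ++ v) u.length

theorem exists_twoDFA [Fintype Q] (hM : M.OnceMarking) :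
    ∃ D : TwoDFA A (St (((Q × Bool) × Bool → (Q × Bool) × Bool → Prop) ×
      ((Q × Bool) × Bool → (Q × Bool) × Bool → Prop))
      ((Q × Bool) × Bool → (Q × Bool) × Bool → Prop)), ∀ w, D.Accepts w ↔ M.Accepts w := by
  classical
  set B := (((Q × Bool) × Bool → (Q × Bool) × Bool → Prop) ×
      ((Q × Bool) × Bool → (Q × Bool) × Bool → Prop)) with hB
  letI : LinearOrder B := LinearOrder.lift' (Fintype.equivFin B) (Equiv.injective _)
  obtain ⟨δ, hδ⟩ := exists_fold (betaM M) (betaM_congr M)
  obtain ⟨σ, hσ⟩ := exists_foldr (gammaM M) (gammaM_congr M)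
  refine ⟨bimach δ (betaM M []) σ (gammaM M []) (condM M), fun w => ?_⟩
  rw [bimach_accepts, accepts_iff M hM]
  constructor
  · rintro ⟨j, hj, u, v, h1, h2, h3⟩
    refine ⟨j, hj, ?_⟩
    rw [hδ] at h1
    rw [hσ] at h2
    have := accAt_congr M u (w.take j) v (w.drop j) h1 h2 h3
    rwa [List.take_append_drop, List.length_take, min_eq_left hj] at this
  · rintro ⟨j, hj, h⟩
    refine ⟨j, hj, w.take j, w.drop j, ?_, ?_, ?_⟩
    · rw [hδ]
    · rw [hσ]
    · rw [List.take_append_drop, List.length_take, min_eq_left hj]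
      exact h

lemma card_beh (n : ℕ) : Fintype.card ((Fin n × Bool) × Bool → (Fin n × Bool) × Bool → Prop) =
    2 ^ (16 * n ^ 2) := by
  classical
  simp only [Fintype.card_fun, Fintype.card_prop, Fintype.card_prod, Fintype.card_fin,
    Fintype.card_bool]
  rw [← pow_mul]
  congr 1
  ring

lemma count_aux {A B G : Type} [Fintype B] [Fintype G] (n : ℕ) (hn : 1 ≤ n)
    (hB : Fintype.card B = 2 ^ (16 * n ^ 2) * 2 ^ (16 * n ^ 2))
    (hG : Fintype.card G = 2 ^ (16 * n ^ 2)) (D : TwoDFA A (St B G)) :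
    ∃ m ≤ 2 ^ (84 * n ^ 2), ∃ D' : TwoDFA A (Fin m), ∀ w, D'.Accepts w ↔ D.Accepts w := by
  classical
  refine ⟨Fintype.card (St B G), ?_, D.map (Fintype.equivFin _),
      fun w => by rw [TwoDFA.map_accepts]⟩
  refine St.card_le.trans ?_
  rw [hB, hG]
  set x := 2 ^ (16 * n ^ 2) with hx
  have hx1 : 1 ≤ x := Nat.one_le_two_pow
  have h1 : x * x ≤ x ^ 5 := by
    calc x * x = x ^ 2 := by ring
      _ ≤ x ^ 5 := Nat.pow_le_pow_right hx1 (by norm_num)
  have h2 : x * x * x ≤ x ^ 5 := by
    calc x * x * x = x ^ 3 := by ring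
      _ ≤ x ^ 5 := Nat.pow_le_pow_right hx1 (by norm_num)
  have h3 : 1 ≤ x ^ 5 := Nat.one_le_pow _ _ hx1
  have h4 : 8 * (x * x) ^ 2 * x = 8 * x ^ 5 := by ring
  have h5 : x * x + (x * x * x + (8 * (x * x) ^ 2 * x + 1)) ≤ 2 ^ 4 * x ^ 5 := by
    rw [h4]; omega
  refine h5.trans ?_
  rw [hx, ← pow_mul, ← pow_add]
  apply Nat.pow_le_pow_right (by norm_num)
  have : 1 ≤ n ^ 2 := Nat.one_le_pow _ _ hn
  omega

theorem upper_bound {A : Type} (n : ℕ) (hn : 1 ≤ n) (M : MLA A (Fin n)) (hM : M.OnceMarking) :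
    ∃ m ≤ 2 ^ (84 * n ^ 2), ∃ D : TwoDFA A (Fin m), ∀ w, D.Accepts w ↔ M.Accepts w := by
  classical
  obtain ⟨D, hD⟩ := exists_twoDFA M hM
  obtain ⟨m, hm, D', hD'⟩ := count_aux n hn (by rw [Fintype.card_prod, card_beh]) (card_beh n) D
  exact ⟨m, hm, D', fun w => by rw [hD', hD]⟩

end Upper

end Pool.Agent.H617R2
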